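import Mathlib
import Pool.Agent.N973.ND.Stm

/-!
# Project GB (helper916): 4-rank zero for negative discriminants, all primes, natural density

`D` runs over the negative fundamental discriminants, odd or even, in a union of classes. To the set
`S` of the odd prime factors of `D` (and to the prime `2` if `D` is even, `t = true`) we attach the
Rédei system; all its solutions are constant (that is, the class group of `ℚ(√D)` has no element of
order `4`) for exactly the proportion `η = ∏_{i ≥ 1} (1 - 2^{-i})` of the `D`. The prime discriminant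
at `2` is `-4` for `(r, s) = (0, 1)`, `8` for `(1, 0)` and `-8` for `(1, 1)`.
Statements of the parts, after project ND (helper973) and the projects CX, CQ (helper703).
-/

set_option autoImplicit false
set_option linter.unusedVariables false

open scoped Classical

namespace Pool.Agent.N916.GB

open Finset
open Pool.Agent.Y703.CX (sm la jj XX eL zz kk S_SIE)
open Pool.Agent.Y703.CQ (nr sg)
open Pool.Agent.N973.ND (uu)

/-- the odd primes -/
def Po (p : ℕ) : Prop := p.Prime ∧ p ≠ 2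

/-- the class of the sets of primes; `K` is a set of residues modulo `120` -/
def Cl (K S : Finset ℕ) : Prop := (∀ p ∈ S, Po p) ∧ (∏ p ∈ S, p) % 120 ∈ K

/-- the sets of the class with product at most `X` -/
noncomputable def SS (K : Finset ℕ) (X : ℕ) : Finset (Finset ℕ) :=
  (range (X + 1)).powerset.filter fun S => Cl K S ∧ ∏ p ∈ S, p ≤ X

/-- all the sets of odd primes with product at most `X` -/
noncomputable def SA (X : ℕ) : Finset (Finset ℕ) :=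
  (range (X + 1)).powerset.filter fun S => (∀ p ∈ S, Po p) ∧ ∏ p ∈ S, p ≤ X

/-- the symbols: `sy r s q p` is the symbol of the prime discriminant `d_p` at `q` -/
noncomputable def sy (r s : ZMod 2) (q p : ℕ) : ZMod 2 :=
  if p = 2 then r * nr q 2 + s * uu q else nr p q

/-- the primes of the discriminant -/
def Vt (t : Bool) (S : Finset ℕ) : Finset ℕ := if t = true then insert 2 S else S

/-- the good sets: all the solutions are constant -/
def Gd (t : Bool) (r s : ZMod 2) (S : Finset ℕ) : Prop :=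
  ∀ x : ℕ → ZMod 2, (∀ q ∈ Vt t S, ∑ p ∈ Vt t S, (x p + x q) * sy r s q p = 0) →
    ∀ p ∈ Vt t S, ∀ q ∈ Vt t S, x p = x q

/-- the parameters: the discriminant is negative -/
def Ok (t : Bool) (r s : ZMod 2) (K : Finset ℕ) : Prop :=
  (t = false → s = 0) ∧ (t = true → r ≠ 0 ∨ s ≠ 0) ∧
    ∀ a ∈ K, a < 120 ∧ a % 4 = if s = 0 then 3 else 1

/-- the limit `(1 - 1/2) (1 - 1/4) (1 - 1/8) ⋯ = 0.2888...` -/
noncomputable def eta : ℝ := ∏' i : ℕ, (1 - (1 / 2 : ℝ) ^ (i + 1))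

/-! ### Linear algebra -/

/-- the pairs of indices -/
noncomputable def ps (J : Type) [Fintype J] [LinearOrder J] : Finset (J × J) :=
  univ.filter fun e => e.1 < e.2

/-- the symmetric extension -/
noncomputable def sx {J : Type} [Fintype J] [LinearOrder J] (σ : ps J → ZMod 2) (k l : J) : ZMod 2 :=
  if h : (k, l) ∈ ps J then σ ⟨(k, l), h⟩ else if h' : (l, k) ∈ ps J then σ ⟨(l, k), h'⟩ else 0

/-- a function of two indices, changed on the large indices -/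
noncomputable def pt {U J : Type} (F : U ⊕ J → U ⊕ J → ZMod 2) (δ : J → J → ZMod 2) :
    U ⊕ J → U ⊕ J → ZMod 2
  | Sum.inr k, Sum.inr l => F (Sum.inr k) (Sum.inr l) + δ k l
  | i, j => F i j

/-- the good systems: all the solutions are constant -/
def Gv {V : Type} [Fintype V] (N : V → V → ZMod 2) : Prop :=
  ∀ x : V → ZMod 2, (∀ q, ∑ p, (x p + x q) * N q p = 0) → ∀ p q, x p = x q

/-- GB-LA: the probability that a random completion is good. `w` is the relation of the rows, `u`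
the class modulo `4`. -/
def S_LA : Prop := ∀ ε : ℝ, 0 < ε → ∃ V₀ : ℕ, ∀ (U J : Type) [Fintype U] [Fintype J] [LinearOrder J]
  (w u : U ⊕ J → ZMod 2) (N : U ⊕ J → U ⊕ J → ZMod 2),
  (∀ k, w (Sum.inr k) = 1) → ∑ i, u i = 1 →
  (∀ i j, i ≠ j → w i * N i j + w j * N j i = u i * u j) →
  (∀ v, w (Sum.inl v) = 0 → u (Sum.inl v) = 1 ∧ ∀ v', w (Sum.inl v') = 0 → v = v') →
  (∀ (b : U → ZMod 2) (s : ZMod 2), ((∃ v, b v ≠ 0) ∨ s ≠ 0) →
    ∃ k, ∑ v, b v * N (Sum.inl v) (Sum.inr k) + s * u (Sum.inr k) ≠ 0) →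
  2 * Fintype.card U + V₀ ≤ (univ.filter fun k : J => u (Sum.inr k) = 1).card →
  |((univ.filter fun σ : ps J → ZMod 2 => Gv (pt N (sx σ))).card : ℝ) / 2 ^ (ps J).card - eta| ≤ ε

/-! ### Equidistribution -/

/-- GB-BIL: bilinear sums of quadratic symbols. -/
def S_BIL : Prop := ∃ C : ℝ, 1 ≤ C ∧ ∀ (P Q : Finset ℕ) (A B z : ℕ) (c d : ℕ → ℂ),
  (∀ p ∈ P, Po p ∧ p ≤ A) → (∀ q ∈ Q, Po q ∧ q ≤ B) →
  Disjoint P Q → 1 ≤ z → z ≤ A → z ≤ B → (∀ p, ‖c p‖ ≤ 1) → (∀ q, ‖d q‖ ≤ 1) →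
  ‖∑ p ∈ P, ∑ q ∈ Q, c p * d q * sg (nr p q)‖ ^ 12 * z ≤ C * ((A : ℝ) * B) ^ 12

/-- the bilinear hypothesis for a box -/
def HB {ι : Type} (C : ι → Finset ℕ) (X : ι → ℕ) (κ : ℝ) : Prop :=
  ∀ i l : ι, i ≠ l → ∀ c d : ℕ → ℂ, (∀ p, ‖c p‖ ≤ 1) → (∀ q, ‖d q‖ ≤ 1) →
    ‖∑ x ∈ C i, ∑ y ∈ C l, c x * d y * sg (nr x y)‖ ≤ κ * (X i * X l)

/-- GB-EQ: equidistribution of the symbols of a tuple. -/
def S_EQ : Prop := ∀ (ι : Type) [Fintype ι] [LinearOrder ι]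
  (C : ι → Finset ℕ) (X : ι → ℕ) (κ : ℝ), 0 ≤ κ → (∀ i, (C i).card ≤ X i) → HB C X κ →
  ∀ Q : (ps ι → ZMod 2) → Prop,
    |(((Fintype.piFinset C).filter fun p => Q fun e => nr (p e.1.1) (p e.1.2)).card : ℝ) -
      ((univ.filter Q).card : ℝ) / 2 ^ (ps ι).card * ∏ j, ((C j).card : ℝ)| ≤
    2 ^ (ps ι).card * (κ * ∏ j, (X j : ℝ))

/-- the labels of the large primes with respect to the small ones are not degenerate -/
def Nd (S₀ S₁ : Finset ℕ) : Prop :=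
  ∀ (w : ℕ → ZMod 2) (s : ZMod 2), ((∃ v ∈ insert 2 S₀, w v ≠ 0) ∨ s ≠ 0) →
    ∃ p ∈ S₁, ∑ v ∈ insert 2 S₀, w v * nr p v + s * uu p ≠ 0

/-- GB-BOX: the count in a box; the class modulo `4` of the primes is `τ`. -/
def S_BOX : Prop := S_EQ → S_LA → ∀ ε : ℝ, 0 < ε → ∃ V₀ : ℕ, ∀ (t : Bool) (r s : ZMod 2) (ι : Type)
  [Fintype ι] [LinearOrder ι] (τ : ι → ℕ) (C : ι → Finset ℕ) (X : ι → ℕ) (κ : ℝ) (S₀ : Finset ℕ),
  (t = false → s = 0) → (t = true → r ≠ 0 ∨ s ≠ 0) → 0 ≤ κ → (∀ i, (C i).card ≤ X i) → HB C X κ →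
  (∀ v ∈ S₀, Po v) → (∀ i, ∀ p ∈ C i, Po p ∧ p ∉ S₀ ∧ p % 4 = τ i) →
  (∀ i l, i ≠ l → Disjoint (C i) (C l)) →
  ((S₀.filter fun p => p % 4 = 3).card + (univ.filter fun i => τ i = 3).card +
    (if s = 0 then 0 else 1)) % 2 = 1 →
  2 * S₀.card + V₀ ≤ (univ.filter fun i => τ i = 3).card →
  |(((Fintype.piFinset C).filter fun p => Nd S₀ (univ.image p) ∧
        Gd t r s (S₀ ∪ univ.image p)).card : ℝ) -
      eta * (((Fintype.piFinset C).filter fun p => Nd S₀ (univ.image p)).card : ℝ)| ≤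
    ε * (((Fintype.piFinset C).filter fun p => Nd S₀ (univ.image p)).card : ℝ) +
    2 ^ ((2 * S₀.card + 1) * Fintype.card ι + (ps ι).card) * (κ * ∏ j, (X j : ℝ))

/-- the regular sets -/
noncomputable def RR (K : Finset ℕ) (X z H k V : ℕ) : Finset (Finset ℕ) :=
  (SS K X).filter fun S => Set.InjOn (jj H) (la z S : Set ℕ) ∧ S.card ≤ k ∧
    (∏ p ∈ sm z S, p) * ∏ p ∈ la z S, XX H (jj H p) ≤ X ∧
    2 * (sm z S).card + V ≤ ((la z S).filter fun p => p % 4 = 3).card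

/-- GB-KEY: the sum over the boxes. -/
def S_KEY : Prop := S_BIL → S_EQ → S_LA → S_BOX → ∀ ε : ℝ, 0 < ε → ∃ (V₀ : ℕ) (C : ℝ), 1 ≤ C ∧
  ∀ (t : Bool) (r s : ZMod 2) (K : Finset ℕ), Ok t r s K →
  ∀ (X z H k N : ℕ) (κ : ℝ), 1 ≤ X → 1 ≤ H → 1 ≤ z → 0 ≤ κ → C ≤ κ ^ 12 * z →
  (H : ℝ) * Real.log X < N →
  |(((RR K X z H k V₀).filter fun S => Nd (sm z S) (la z S) ∧ Gd t r s S).card : ℝ) -
      eta * (((RR K X z H k V₀).filter fun S => Nd (sm z S) (la z S)).card : ℝ)| ≤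
    ε * ((RR K X z H k V₀).card : ℝ) +
    (120 * N + 120 : ℝ) ^ k * (3 ^ (9 * k ^ 2 + 9) * κ) * (X * (1 + Real.log X))

/-- GB-CNT: sets with many primes, sets near the boundary, sets with two primes in a block. -/
structure CntP : Prop where
  many : ∀ X k : ℕ, 1 ≤ X →
    (((SA X).filter fun S => k < S.card).card : ℝ) * 2 ^ k ≤ X * (1 + Real.log X)
  cut : ∀ X z H k : ℕ, 1 ≤ X → 1 ≤ H → (((SA X).filter fun S => S.card ≤ k ∧
      X < (∏ p ∈ sm z S, p) * ∏ p ∈ la z S, XX H (jj H p)).card : ℝ) ≤ X * k / H + 1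
  coll : ∀ X z H : ℕ, 1 ≤ X → 1 ≤ H → (((SA X).filter fun S =>
    ¬ Set.InjOn (jj H) (la z S : Set ℕ)).card : ℝ) ≤ 4 * X * (1 + Real.log X) / H

/-- GB-MER: Mertens' theorem modulo `8`. -/
def S_ME8 : Prop := ∀ a : ℕ, a % 2 = 1 → ∃ C : ℝ, ∀ y : ℕ, 3 ≤ y →
  |∑ p ∈ (range (y + 1)).filter (fun p => p.Prime ∧ p % 8 = a % 8), (1 : ℝ) / p -
    1 / 4 * Real.log (Real.log y)| ≤ C

/-- the sets of primes `1` modulo `8` for which the product of the primes in `W` is a square -/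
noncomputable def HD (W : Finset ℕ) (T : ℕ) : Finset (Finset ℕ) :=
  (range (T + 1)).powerset.filter fun S => (∀ p ∈ S, p.Prime ∧ p % 8 = 1 ∧ p ∉ W ∧
    ∑ u ∈ W, nr p u = 0) ∧ ∏ p ∈ S, p ≤ T

/-- GB-HAL: the logarithmic density for a nontrivial quadratic character. -/
def S_HAL : Prop := ∃ C : ℝ, 1 ≤ C ∧ ∀ (W : Finset ℕ) (T : ℕ), W.Nonempty →
  (∀ u ∈ W, Po u) → 2 ≤ T →
  ∑ S ∈ HD W T, (1 : ℝ) / ((∏ p ∈ S, p : ℕ) : ℝ) ≤
    C * (Real.log ((∏ u ∈ W, u : ℕ) : ℝ)) ^ (1 / 2 : ℝ) * (Real.log T) ^ (1 / 8 : ℝ)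

/-- the labels of the large primes `1` modulo `8` with respect to the small primes -/
def N8 (S₀ S₁ : Finset ℕ) : Prop :=
  ∀ w : ℕ → ZMod 2, (∃ u ∈ S₀, w u ≠ 0) → ∃ p ∈ S₁, p % 8 = 1 ∧ ∑ u ∈ S₀, w u * nr p u ≠ 0

/-- GB-BAD: few sets have degenerate labels. -/
def S_BAD : Prop := S_SIE → S_HAL → S_ME8 →
  ∀ ε : ℝ, 0 < ε → ∃ X₀ : ℕ, ∀ X : ℕ, X₀ ≤ X →
  (((SA X).filter fun S => S.card ≤ kk X ∧ ¬ N8 (sm (zz X) S) (la (zz X) S)).card : ℝ) ≤ ε * X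

/-- GB-FE1: few sets have no large prime in an odd class modulo `8`. -/
def S_FE1 : Prop := S_SIE → S_ME8 → ∀ a : ℕ, a % 2 = 1 → ∀ ε : ℝ, 0 < ε →
  ∃ X₀ : ℕ, ∀ X : ℕ, X₀ ≤ X →
  (((SA X).filter fun S => ∀ p ∈ la (zz X) S, p % 8 ≠ a % 8).card : ℝ) ≤ ε * X

/-- GB-FE2: few sets have few large primes `3` modulo `4` compared with the number of the small
primes. -/
def S_FE2 : Prop := S_SIE → S_ME8 → ∀ (V : ℕ) (ε : ℝ), 0 < ε → ∃ X₀ : ℕ, ∀ X : ℕ, X₀ ≤ X →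
  (((SA X).filter fun S => ((la (zz X) S).filter fun p => p % 4 = 3).card <
    2 * (sm (zz X) S).card + V).card : ℝ) ≤ ε * X

/-- FINAL: the proportion of the good sets -/
def S_DQ : Prop := ∀ (t : Bool) (r s : ZMod 2) (K : Finset ℕ), Ok t r s K →
  ∀ ε : ℝ, 0 < ε → ∃ X₀ : ℕ, ∀ X : ℕ, X₀ ≤ X →
  |(((SS K X).filter (Gd t r s)).card : ℝ) - eta * ((SS K X).card : ℝ)| ≤ ε * X

/-- the labels are not degenerate if they are not degenerate at the primes `1` modulo `8` and if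
there are large primes `3` and `5` modulo `8` -/
def S_ND : Prop := ∀ S₀ S₁ : Finset ℕ, (∀ p ∈ S₀, Po p) → (∀ p ∈ S₁, Po p) → N8 S₀ S₁ →
  (∃ p ∈ S₁, p % 8 = 3) → (∃ p ∈ S₁, p % 8 = 5) → Nd S₀ S₁

end Pool.Agent.N916.GB
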