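import Mathlib
import Pool.Agent.N916.GB.Stm

/-!
# GB-LA, part 0: the constant `η` and the Bonferroni inequalities over the field with two elements
-/

set_option autoImplicit false
set_option linter.all false

open scoped Classical

namespace Pool.Agent.N916.GB

open Finset Filter

/-- the product `(2 - 1) (4 - 1) ⋯ (2 ^ k - 1)` -/
noncomputable def mm (k : ℕ) : ℝ := ∏ i ∈ range k, ((2 : ℝ) ^ (i + 1) - 1)

theorem mm_pos (k : ℕ) : 0 < mm k := prod_pos fun i _ => by
  have : (1 : ℝ) < 2 ^ (i + 1) := one_lt_pow₀ (by norm_num) (by omega)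
  linarith

theorem mm_succ (k : ℕ) : mm (k + 1) = mm k * ((2 : ℝ) ^ (k + 1) - 1) := prod_range_succ _ _

theorem mm_zero : mm 0 = 1 := by simp [mm]

theorem mm_ge (k : ℕ) : (2 : ℝ) ^ k ≤ 2 * mm k := by
  induction k with
  | zero => rw [mm_zero]; norm_num
  | succ k ih =>
    rw [mm_succ]
    rcases Nat.eq_zero_or_pos k with h | h
    · subst h
      rw [mm_zero]
      norm_num
    · have h1 : (4 : ℝ) ≤ 2 ^ (k + 1) := by
        calc (4 : ℝ) = 2 ^ 2 := by norm_num
          _ ≤ 2 ^ (k + 1) := pow_le_pow_right₀ (by norm_num) (by omega)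
      have h2 := mm_pos k
      have h3 : mm k * 3 ≤ mm k * ((2 : ℝ) ^ (k + 1) - 1) :=
        mul_le_mul_of_nonneg_left (by linarith) h2.le
      rw [pow_succ (2 : ℝ) k]
      rw [pow_succ (2 : ℝ) k] at h3
      linarith

theorem mm_one_le (k : ℕ) : 1 ≤ mm k := by
  induction k with
  | zero => rw [mm_zero]
  | succ k ih =>
    rw [mm_succ]
    have h1 : (2 : ℝ) ≤ 2 ^ (k + 1) := by
      calc (2 : ℝ) = 2 ^ 1 := by norm_num
        _ ≤ 2 ^ (k + 1) := pow_le_pow_right₀ (by norm_num) (by omega)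
    nlinarith

theorem inv_mm_le (k : ℕ) : 1 / mm k ≤ 2 * (1 / 2 : ℝ) ^ k := by
  rw [div_le_iff₀ (mm_pos k)]
  have h := mm_ge k
  have h1 : (0 : ℝ) < 2 ^ k := by positivity
  have h2 : (1 / 2 : ℝ) ^ k = 1 / 2 ^ k := by rw [div_pow, one_pow]
  rw [h2]
  rw [show 2 * (1 / (2 : ℝ) ^ k) * mm k = (2 * mm k) / 2 ^ k by ring]
  rw [le_div_iff₀ h1]
  linarith

/-- the terms of the series -/
noncomputable def gt (x : ℝ) (k : ℕ) : ℝ := (-1) ^ k * x ^ k / mm k

theorem gt_abs {x : ℝ} (hx : |x| ≤ 1) (k : ℕ) : |gt x k| ≤ 2 * (1 / 2 : ℝ) ^ k := by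
  unfold gt
  rw [abs_div, abs_mul, abs_pow, abs_pow, abs_neg, abs_one, one_pow, one_mul,
    abs_of_pos (mm_pos k)]
  refine le_trans ?_ (inv_mm_le k)
  have h1 : |x| ^ k ≤ 1 := pow_le_one₀ (abs_nonneg _) hx
  have := mm_pos k
  gcongr

theorem gt_summable {x : ℝ} (hx : |x| ≤ 1) : Summable (gt x) := by
  refine Summable.of_norm_bounded (g := fun k => 2 * (1 / 2 : ℝ) ^ k) ?_ fun k => ?_
  · exact (summable_geometric_of_lt_one (by norm_num) (by norm_num)).mul_left 2
  · rw [Real.norm_eq_abs]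
    exact gt_abs hx k

theorem gt_succ (x : ℝ) (k : ℕ) : gt (2 * x) (k + 1) = gt x (k + 1) - x * gt x k := by
  unfold gt
  have h1 := (mm_pos k).ne'
  have h2 := (mm_pos (k + 1)).ne'
  have h3 : (2 : ℝ) ^ (k + 1) - 1 ≠ 0 := by
    intro h
    rw [mm_succ, h, mul_zero] at h2
    exact h2 rfl
  rw [mm_succ]
  field_simp
  ring

/-- the sum of the series -/
noncomputable def Gs (x : ℝ) : ℝ := ∑' k, gt x k

theorem Gs_two {x : ℝ} (hx : |x| ≤ 1 / 2) : Gs (2 * x) = (1 - x) * Gs x := by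
  have hx1 : |x| ≤ 1 := hx.trans (by norm_num)
  have hx2 : |2 * x| ≤ 1 := by
    rw [abs_mul, abs_two]
    linarith
  have s1 := gt_summable hx1
  have s2 := gt_summable hx2
  unfold Gs
  rw [s2.tsum_eq_zero_add, tsum_congr fun k => gt_succ x k]
  rw [Summable.tsum_sub ((summable_nat_add_iff 1).2 s1) (s1.mul_left x), tsum_mul_left]
  have h := s1.tsum_eq_zero_add
  have h0 : gt (2 * x) 0 = gt x 0 := by simp [gt]
  rw [h0]
  linarith

theorem Gs_sub_one {x : ℝ} (hx : |x| ≤ 1) : |Gs x - 1| ≤ 2 * |x| := by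
  have s1 := gt_summable hx
  unfold Gs
  rw [s1.tsum_eq_zero_add]
  have h0 : gt x 0 = 1 := by simp [gt, mm_zero]
  rw [h0, add_sub_cancel_left]
  have hg : HasSum (fun k : ℕ => |x| * (1 / 2 : ℝ) ^ k) (|x| * 2) :=
    (hasSum_geometric_two).mul_left |x|
  rw [mul_comm, ← Real.norm_eq_abs (∑' b, gt x (b + 1))]
  refine tsum_of_norm_bounded hg fun k => ?_
  rw [Real.norm_eq_abs]
  have : gt x (k + 1) = x * ((-1) ^ (k + 1) * x ^ k / mm (k + 1)) := by
    unfold gt
    ring
  rw [this, abs_mul]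
  refine mul_le_mul_of_nonneg_left ?_ (abs_nonneg _)
  rw [abs_div, abs_mul, abs_pow, abs_pow, abs_neg, abs_one, one_pow, one_mul,
    abs_of_pos (mm_pos _)]
  have h1 : |x| ^ k ≤ 1 := pow_le_one₀ (abs_nonneg _) hx
  have h2 := mm_pos (k + 1)
  have h3 := inv_mm_le (k + 1)
  calc |x| ^ k / mm (k + 1) ≤ 1 / mm (k + 1) := by gcongr
    _ ≤ 2 * (1 / 2 : ℝ) ^ (k + 1) := h3
    _ = (1 / 2 : ℝ) ^ k := by ring

theorem Gs_prod (n : ℕ) : Gs 1 = (∏ i ∈ range n, (1 - (1 / 2 : ℝ) ^ (i + 1))) * Gs ((1 / 2) ^ n) := by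
  induction n with
  | zero => simp
  | succ n ih =>
    rw [ih, prod_range_succ, mul_assoc, ← Gs_two]
    · congr 2
      ring
    · rw [abs_of_nonneg (by positivity)]
      rw [pow_succ]
      have : (1 / 2 : ℝ) ^ n ≤ 1 := pow_le_one₀ (by norm_num) (by norm_num)
      linarith

theorem eta_tendsto : Tendsto (fun n : ℕ => ∏ i ∈ range n, (1 - (1 / 2 : ℝ) ^ (i + 1))) atTop
    (nhds eta) := by
  have h1 : Multipliable fun i : ℕ => 1 + (-(1 / 2 : ℝ) ^ (i + 1)) := by
    refine multipliable_one_add_of_summable ?_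
    simp only [norm_neg, norm_pow]
    have := (summable_geometric_of_lt_one (r := (1 / 2 : ℝ)) (by norm_num) (by norm_num))
    refine ((summable_nat_add_iff 1).2 this).congr fun i => ?_
    rw [Real.norm_of_nonneg (by norm_num)]
  have h2 := h1.hasProd.tendsto_prod_nat
  have h3 : (∏' i : ℕ, (1 + (-(1 / 2 : ℝ) ^ (i + 1)))) = eta := by
    unfold eta
    refine tprod_congr fun i => ?_
    rw [sub_eq_add_neg]
  rw [h3] at h2
  refine h2.congr fun n => prod_congr rfl fun i _ => ?_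
  rw [sub_eq_add_neg]

theorem Gs_one : Gs 1 = eta := by
  have h1 : Tendsto (fun n : ℕ => Gs ((1 / 2) ^ n)) atTop (nhds 1) := by
    have h2 : Tendsto (fun n : ℕ => (1 / 2 : ℝ) ^ n) atTop (nhds 0) :=
      tendsto_pow_atTop_nhds_zero_of_lt_one (by norm_num) (by norm_num)
    rw [tendsto_iff_norm_sub_tendsto_zero]
    have h3 : Tendsto (fun n : ℕ => 2 * (1 / 2 : ℝ) ^ n) atTop (nhds 0) := by
      simpa using h2.const_mul 2
    refine squeeze_zero (fun n => norm_nonneg _) (fun n => ?_) h3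
    rw [Real.norm_eq_abs]
    refine (Gs_sub_one ?_).trans ?_
    · rw [abs_of_nonneg (by positivity)]
      exact pow_le_one₀ (by norm_num) (by norm_num)
    · rw [abs_of_nonneg (by positivity)]
  have h4 := eta_tendsto.mul h1
  rw [mul_one] at h4
  have h5 : Tendsto (fun _ : ℕ => Gs 1) atTop (nhds eta) := h4.congr fun n => (Gs_prod n).symm
  exact tendsto_nhds_unique tendsto_const_nhds h5

theorem eta_sum : Tendsto (fun K : ℕ => ∑ k ∈ range K, (-1 : ℝ) ^ k / mm k) atTop (nhds eta) := by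
  have h := (gt_summable (x := 1) (by simp)).hasSum.tendsto_sum_nat
  have h1 : (∑' i, gt 1 i) = eta := Gs_one
  rw [h1] at h
  refine h.congr fun n => sum_congr rfl fun i _ => ?_
  unfold gt
  rw [one_pow, mul_one]

/-! ### Bonferroni -/

theorem bon (K : ℕ) (x : ℝ) : ∑ k ∈ range (K + 1), (-1) ^ k * (∏ i ∈ range k, (x - 2 ^ i)) / mm k =
    (-1) ^ K * (∏ i ∈ range K, (x - 2 ^ (i + 1))) / mm K := by
  induction K with
  | zero => simp
  | succ K ih =>
    rw [sum_range_succ, ih, prod_range_succ', prod_range_succ, mm_succ]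
    have h1 := (mm_pos K).ne'
    have h3 : (2 : ℝ) ^ (K + 1) - 1 ≠ 0 := by
      have h2 := (mm_pos (K + 1)).ne'
      intro h
      rw [mm_succ, h, mul_zero] at h2
      exact h2 rfl
    field_simp
    ring

/-- the number of the independent families -/
noncomputable def In (k d : ℕ) : ℝ := ∏ i ∈ range k, ((2 : ℝ) ^ d - 2 ^ i)

theorem bon_val (K d : ℕ) : (d = 0 → (-1 : ℝ) ^ K * (∏ i ∈ range K, ((2 : ℝ) ^ d - 2 ^ (i + 1))) / mm K = 1) ∧
    (0 < d → 0 ≤ (∏ i ∈ range K, ((2 : ℝ) ^ d - 2 ^ (i + 1))) / mm K) := by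
  constructor
  · intro h
    subst h
    have h1 : ∏ i ∈ range K, ((2 : ℝ) ^ 0 - 2 ^ (i + 1)) = (-1) ^ K * mm K := by
      unfold mm
      rw [← card_range K, ← prod_const, card_range, ← prod_mul_distrib]
      refine prod_congr rfl fun i _ => ?_
      ring
    rw [h1, ← mul_assoc, ← mul_pow]
    norm_num
    exact (mm_pos K).ne'
  · intro h
    refine div_nonneg ?_ (mm_pos K).le
    rcases le_or_gt d K with hd | hd
    · refine le_of_eq (Eq.symm ?_)
      refine prod_eq_zero (i := d - 1) (mem_range.2 (by omega)) ?_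
      rw [show d - 1 + 1 = d by omega, sub_self]
    · refine prod_nonneg fun i hi => ?_
      rw [mem_range] at hi
      have : (2 : ℝ) ^ (i + 1) ≤ 2 ^ d := pow_le_pow_right₀ (by norm_num) (by omega)
      linarith

theorem bon_even {K : ℕ} (hK : Even K) (d : ℕ) :
    (if d = 0 then (1 : ℝ) else 0) ≤ ∑ k ∈ range (K + 1), (-1) ^ k * In k d / mm k := by
  unfold In
  rw [bon]
  obtain ⟨h1, h2⟩ := bon_val K d
  by_cases h : d = 0
  · rw [if_pos h, h1 h]
  · rw [if_neg h, hK.neg_one_pow, one_mul]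
    exact h2 (Nat.pos_of_ne_zero h)

theorem bon_odd {K : ℕ} (hK : Odd K) (d : ℕ) :
    ∑ k ∈ range (K + 1), (-1) ^ k * In k d / mm k ≤ (if d = 0 then (1 : ℝ) else 0) := by
  unfold In
  rw [bon]
  obtain ⟨h1, h2⟩ := bon_val K d
  by_cases h : d = 0
  · rw [if_pos h, h1 h]
  · rw [if_neg h, hK.neg_one_pow, neg_one_mul, neg_div]
    have := h2 (Nat.pos_of_ne_zero h)
    linarith

/-- the number of the independent families -/
theorem card_li {W : Type} [AddCommGroup W] [Module (ZMod 2) W] [Finite W] (k : ℕ) :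
    (Nat.card {s : Fin k → W // LinearIndependent (ZMod 2) s} : ℝ) =
      In k (Module.finrank (ZMod 2) W) := by
  unfold In
  rcases le_or_gt k (Module.finrank (ZMod 2) W) with h | h
  · rw [card_linearIndependent h, Finset.prod_range, Nat.cast_prod]
    refine prod_congr rfl fun i _ => ?_
    have hq : Fintype.card (ZMod 2) = 2 := ZMod.card 2
    rw [hq, Nat.cast_sub]
    · push_cast
      ring
    · exact Nat.pow_le_pow_right (by norm_num) (by omega)
  · have h1 : IsEmpty {s : Fin k → W // LinearIndependent (ZMod 2) s} := by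
      constructor
      rintro ⟨s, hs⟩
      have := hs.fintype_card_le_finrank
      rw [Fintype.card_fin] at this
      omega
    rw [Nat.card_of_isEmpty, Nat.cast_zero]
    refine (prod_eq_zero (i := Module.finrank (ZMod 2) W) (mem_range.2 h) (sub_self _)).symm

end Pool.Agent.N916.GB
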