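import Mathlib
import Pool.Agent.N916.GB.LA0

/-!
# GB: numerical bounds for `η`
-/

set_option autoImplicit false
set_option linter.all false

namespace Pool.Agent.N916.GB

open Finset

theorem eta_bounds : 0.2887 < eta ∧ eta < 0.2889 := by
  have h := Gs_prod 16
  rw [Gs_one] at h
  have h1 := Gs_sub_one (x := (1 / 2) ^ 16) (by rw [abs_of_nonneg (by positivity)]; norm_num)
  rw [abs_of_nonneg (by positivity : (0 : ℝ) ≤ (1 / 2) ^ 16), abs_le] at h1
  set g := Gs ((1 / 2) ^ 16) with hg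
  have h2 : ∏ i ∈ range 16, (1 - (1 / 2 : ℝ) ^ (i + 1)) < 0.28880 ∧
      0.28878 < ∏ i ∈ range 16, (1 - (1 / 2 : ℝ) ^ (i + 1)) := by
    simp only [prod_range_succ, prod_range_zero]
    norm_num
  have h3 : g < 1.0001 ∧ 0.9999 < g := by
    obtain ⟨h4, h5⟩ := h1
    norm_num at h4 h5
    constructor
    · linarith
    · linarith
  rw [h]
  set P := ∏ i ∈ range 16, (1 - (1 / 2 : ℝ) ^ (i + 1)) with hP
  constructor
  · nlinarith [h2.1, h2.2, h3.1, h3.2]
  · nlinarith [h2.1, h2.2, h3.1, h3.2]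

theorem eta_pos : 0 < eta := by linarith [eta_bounds.1]

end Pool.Agent.N916.GB
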