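import Mathlib
import Pool.Agent.N916.GB.LA0

/-!
# GB-LA, part 1: characters and moments
-/

set_option autoImplicit false
set_option linter.all false

open scoped Classical

namespace Pool.Agent.N916.GB

open Finset

/-- the sign -/
noncomputable def ch (a : ZMod 2) : ℝ := if a = 0 then 1 else -1

theorem ch_zero : ch 0 = 1 := if_pos rfl

theorem z2 : ∀ a : ZMod 2, a = 0 ∨ a = 1 := by decide

theorem ch_one : ch 1 = -1 := if_neg (by decide)

theorem ch_add (a b : ZMod 2) : ch (a + b) = ch a * ch b := by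
  rcases z2 a with rfl | rfl <;> rcases z2 b with rfl | rfl
  · rw [add_zero, ch_zero, mul_one]
  · rw [zero_add, ch_zero, one_mul]
  · rw [add_zero, ch_zero, mul_one]
  · rw [show (1 : ZMod 2) + 1 = 0 from by decide, ch_zero, ch_one]
    norm_num

theorem ch_abs (a : ZMod 2) : |ch a| = 1 := by
  rcases z2 a with rfl | rfl
  · rw [ch_zero, abs_one]
  · rw [ch_one, abs_neg, abs_one]

theorem ch_sum {ι : Type} (s : Finset ι) (f : ι → ZMod 2) : ch (∑ i ∈ s, f i) = ∏ i ∈ s, ch (f i) := by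
  induction s using Finset.induction_on with
  | empty => rw [sum_empty, prod_empty, ch_zero]
  | insert a s ha ih => rw [sum_insert ha, prod_insert ha, ch_add, ih]

theorem z2_add_self (a : ZMod 2) : a + a = 0 := by
  rcases z2 a with rfl | rfl <;> decide

/-- orthogonality -/
theorem orth {ι : Type} [Fintype ι] [DecidableEq ι] (a : ι → ZMod 2) :
    ∑ t : ι → ZMod 2, ch (∑ i, t i * a i) =
      if (∀ i, a i = 0) then (2 : ℝ) ^ Fintype.card ι else 0 := by
  have h1 : ∀ t : ι → ZMod 2, ch (∑ i, t i * a i) = ∏ i, ch (t i * a i) := fun t => ch_sum _ _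
  simp_rw [h1]
  have h2 := Finset.prod_univ_sum (fun _ : ι => (univ : Finset (ZMod 2))) (fun i c => ch (c * a i))
  rw [Fintype.piFinset_univ] at h2
  rw [← h2]
  have h3 : ∀ i, ∑ c : ZMod 2, ch (c * a i) = if a i = 0 then 2 else 0 := by
    intro i
    have h4 : (univ : Finset (ZMod 2)) = {0, 1} := by decide
    rw [h4, sum_pair (by decide), zero_mul, one_mul, ch_zero]
    rcases z2 (a i) with h | h
    · rw [h, ch_zero, if_pos rfl]; norm_num
    · rw [h, ch_one, if_neg (by decide)]; norm_num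
  simp_rw [h3]
  by_cases h : ∀ i, a i = 0
  · rw [if_pos h]
    rw [prod_congr rfl fun i _ => if_pos (h i), prod_const, card_univ]
  · rw [if_neg h]
    push Not at h
    obtain ⟨i, hi⟩ := h
    exact prod_eq_zero (mem_univ i) (if_neg hi)

/-- orthogonality for an additive function -/
theorem orthZ {Z : Type} [AddCommGroup Z] [Fintype Z] (g : Z → ZMod 2)
    (hg : ∀ a b, g (a + b) = g a + g b) :
    ∑ b, ch (g b) = if (∀ b, g b = 0) then (Fintype.card Z : ℝ) else 0 := by
  by_cases h : ∀ b, g b = 0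
  · rw [if_pos h, sum_congr rfl fun b _ => by rw [h b, ch_zero], sum_const, card_univ, nsmul_eq_mul,
      mul_one]
  · rw [if_neg h]
    push Not at h
    obtain ⟨b0, hb0⟩ := h
    have h1 : g b0 = 1 := (z2 (g b0)).resolve_left hb0
    have h2 : ∑ b, ch (g b) = ∑ b, ch (g (b + b0)) :=
      (Equiv.sum_comp (Equiv.addRight b0) fun b => ch (g b)).symm
    have h3 : ∑ b, ch (g (b + b0)) = - ∑ b, ch (g b) := by
      rw [← sum_neg_distrib]
      refine sum_congr rfl fun b _ => ?_
      rw [hg, ch_add, h1, ch_one]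
      ring
    linarith

theorem sum_split {J A : Type} [Fintype J] [LinearOrder J] [AddCommMonoid A] (F : J → J → A) :
    ∑ k, ∑ l, F k l = ∑ k, F k k + ∑ e ∈ ps J, (F e.1 e.2 + F e.2 e.1) := by
  have h0 : ∑ k, ∑ l, F k l = ∑ k, ∑ l, ((if k = l then F k l else 0) +
      ((if k < l then F k l else 0) + (if l < k then F k l else 0))) := by
    refine sum_congr rfl fun k _ => sum_congr rfl fun l _ => ?_
    rcases lt_trichotomy k l with h | h | h
    · rw [if_neg h.ne, if_pos h, if_neg h.not_gt, zero_add, add_zero]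
    · rw [if_pos h, if_neg (by rw [h]; exact lt_irrefl l), if_neg (by rw [h]; exact lt_irrefl l),
        add_zero, add_zero]
    · rw [if_neg h.ne', if_neg h.not_gt, if_pos h, zero_add, zero_add]
  rw [h0]
  simp only [sum_add_distrib]
  congr 1
  · refine sum_congr rfl fun k _ => ?_
    rw [sum_ite_eq, if_pos (mem_univ _)]
  · unfold ps
    rw [sum_filter, sum_filter, Fintype.sum_prod_type, Fintype.sum_prod_type]
    congr 1
    exact sum_comm

theorem sx_diag {J : Type} [Fintype J] [LinearOrder J] (σ : ps J → ZMod 2) (k : J) : sx σ k k = 0 := by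
  unfold sx
  have : (k, k) ∉ ps J := by
    unfold ps
    rw [mem_filter]
    exact fun h => lt_irrefl k h.2
  rw [dif_neg this, dif_neg this]

theorem sx_mem {J : Type} [Fintype J] [LinearOrder J] (σ : ps J → ZMod 2) (e : ps J) :
    sx σ e.1.1 e.1.2 = σ e := by
  unfold sx
  rw [dif_pos e.2]

theorem sx_symm {J : Type} [Fintype J] [LinearOrder J] (σ : ps J → ZMod 2) (k l : J) :
    sx σ k l = sx σ l k := by
  by_cases hkl : k = l
  · rw [hkl]
  unfold sx
  by_cases h1 : (k, l) ∈ ps J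
  · have h2 : (l, k) ∉ ps J := by
      unfold ps at h1 ⊢
      rw [mem_filter] at h1 ⊢
      exact fun h => lt_asymm h1.2 h.2
    rw [dif_pos h1, dif_neg h2, dif_pos h1]
  · by_cases h2 : (l, k) ∈ ps J
    · rw [dif_neg h1, dif_pos h2, dif_pos h2]
    · rw [dif_neg h1, dif_neg h2, dif_neg h2, dif_neg h1]

theorem sx_mem' {J : Type} [Fintype J] [LinearOrder J] (σ : ps J → ZMod 2) (e : ps J) :
    sx σ e.1.2 e.1.1 = σ e := by
  rw [sx_symm, sx_mem]

/-- sums against the symmetric extension -/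
theorem sum_sx {J : Type} [Fintype J] [LinearOrder J] (σ : ps J → ZMod 2) (R : J → J → ZMod 2) :
    ∑ k, ∑ l, sx σ k l * R k l = ∑ e : ps J, σ e * (R e.1.1 e.1.2 + R e.1.2 e.1.1) := by
  rw [sum_split, sum_eq_zero fun k _ => by rw [sx_diag, zero_mul], zero_add]
  rw [← sum_coe_sort (ps J) fun e => sx σ e.1 e.2 * R e.1 e.2 + sx σ e.2 e.1 * R e.2 e.1]
  refine sum_congr rfl fun e _ => ?_
  rw [sx_mem, sx_mem']
  ring

section mom

variable {Z : Type} [AddCommGroup Z] [Module (ZMod 2) Z] [Fintype Z]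

theorem comb_shift {k : ℕ} (c : Fin k → ZMod 2) (j : Fin k) (z : Fin k → Z) (b : Z) :
    ∑ i, c i • (z + (Pi.single j b : Fin k → Z)) i = (∑ i, c i • z i) + c j • b := by
  simp only [Pi.add_apply, smul_add, sum_add_distrib]
  congr 1
  rw [sum_eq_single j]
  · rw [Pi.single_eq_same]
  · intro i _ hij
    rw [Pi.single_eq_of_ne hij, smul_zero]
  · intro h
    exact absurd (mem_univ j) h

/-- the number of tuples with a combination in a given set -/
theorem comb_card {k : ℕ} (c : Fin k → ZMod 2) (j : Fin k) (hj : c j = 1) (S : Finset Z) :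
    ((univ.filter fun z : Fin k → Z => ∑ i, c i • z i ∈ S).card : ℝ) * Fintype.card Z =
      (Fintype.card Z : ℝ) ^ k * S.card := by
  have h1 : ∀ b : Z, ((univ.filter fun z : Fin k → Z => ∑ i, c i • z i ∈ S).card : ℝ) =
      ∑ z : Fin k → Z, if (∑ i, c i • z i) + b ∈ S then (1 : ℝ) else 0 := by
    intro b
    rw [card_filter, Nat.cast_sum]
    rw [← Equiv.sum_comp (Equiv.addRight (Pi.single j b : Fin k → Z))]
    refine sum_congr rfl fun z _ => ?_
    rw [Equiv.coe_addRight, comb_shift, hj, one_smul, Nat.cast_ite, Nat.cast_one, Nat.cast_zero]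
  have h2 : ((univ.filter fun z : Fin k → Z => ∑ i, c i • z i ∈ S).card : ℝ) * Fintype.card Z =
      ∑ b : Z, ∑ z : Fin k → Z, if (∑ i, c i • z i) + b ∈ S then (1 : ℝ) else 0 := by
    rw [sum_congr rfl fun b (_ : b ∈ (univ : Finset Z)) => (h1 b).symm, sum_const, card_univ,
      nsmul_eq_mul, mul_comm]
  rw [h2, sum_comm]
  have h3 : ∀ z : Fin k → Z, (∑ b : Z, if (∑ i, c i • z i) + b ∈ S then (1 : ℝ) else 0) = S.card := by
    intro z
    rw [← sum_filter, sum_const, nsmul_eq_mul, mul_one]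
    norm_cast
    refine card_bij (fun b _ => (∑ i, c i • z i) + b) (fun b hb => (mem_filter.1 hb).2)
      (fun a _ b _ h => add_left_cancel h) fun s hs => ⟨s - ∑ i, c i • z i, ?_, ?_⟩
    · rw [mem_filter]
      refine ⟨mem_univ _, ?_⟩
      rw [add_sub_cancel]
      exact hs
    · rw [add_sub_cancel]
  rw [sum_congr rfl fun z _ => h3 z, sum_const, card_univ, nsmul_eq_mul, Fintype.card_fun,
    Fintype.card_fin, Nat.cast_pow]

/-- the quadratic function of a tuple -/
noncomputable def Qf (B : Z → Z → ZMod 2) {k : ℕ} (τ : ps (Fin k) → ZMod 2) (z : Fin k → Z) : ZMod 2 :=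
  ∑ e : ps (Fin k), τ e * B (z e.1.1) (z e.1.2)

variable {B : Z → Z → ZMod 2}

theorem B_sum (hB : ∀ a b c, B a (b + c) = B a b + B a c) (a : Z) {ι : Type} (s : Finset ι)
    (f : ι → Z) : B a (∑ i ∈ s, f i) = ∑ i ∈ s, B a (f i) := by
  have h0 : B a 0 = 0 := by
    have := hB a 0 0
    rw [add_zero] at this
    exact left_eq_add.1 this
  induction s using Finset.induction_on with
  | empty => rw [sum_empty, sum_empty, h0]
  | insert i s hi ih => rw [sum_insert hi, sum_insert hi, hB, ih]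

theorem B_smul (hB : ∀ a b c, B a (b + c) = B a b + B a c) (a : Z) (c : ZMod 2) (b : Z) :
    B a (c • b) = c * B a b := by
  have h0 : B a 0 = 0 := by
    have := hB a 0 0
    rw [add_zero] at this
    exact left_eq_add.1 this
  rcases z2 c with rfl | rfl
  · rw [zero_smul, h0, zero_mul]
  · rw [one_smul, one_mul]

theorem Qf_shift (hB : ∀ a b c, B a (b + c) = B a b + B a c) (hs : ∀ a b, B a b = B b a) {k : ℕ}
    (τ : ps (Fin k) → ZMod 2) (i0 : Fin k) (z : Fin k → Z) (b : Z) :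
    Qf B τ (z + Pi.single i0 b) = Qf B τ z + B b (∑ j, sx τ i0 j • z j) := by
  have hB' : ∀ a b c, B (a + b) c = B a c + B b c := by
    intro a b c
    rw [hs, hB, hs c a, hs c b]
  have h0 : ∀ a, B a 0 = 0 := by
    intro a
    have := hB a 0 0
    rw [add_zero] at this
    exact left_eq_add.1 this
  have h0' : ∀ a, B 0 a = 0 := fun a => by rw [hs, h0]
  rw [B_sum hB, sum_congr rfl fun j _ => B_smul hB b (sx τ i0 j) (z j)]
  have h1 : ∑ j, sx τ i0 j * B b (z j) =
      ∑ i, ∑ j, sx τ i j * (if i = i0 then B b (z j) else 0) := by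
    symm
    refine (sum_eq_single i0 (fun i _ hi => ?_) (fun h => absurd (mem_univ i0) h)).trans ?_
    · refine sum_eq_zero fun j _ => ?_
      rw [if_neg hi, mul_zero]
    · refine sum_congr rfl fun j _ => ?_
      rw [if_pos rfl]
  rw [h1, sum_sx]
  unfold Qf
  rw [← sum_add_distrib]
  refine sum_congr rfl fun e _ => ?_
  have he : e.1.1 < e.1.2 := by
    have := e.2
    unfold ps at this
    rw [mem_filter] at this
    exact this.2
  rw [← mul_add]
  congr 1
  simp only [Pi.add_apply]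
  by_cases h1 : e.1.1 = i0
  · have h2 : e.1.2 ≠ i0 := by
      intro h
      rw [h1, h] at he
      exact lt_irrefl _ he
    rw [if_pos h1, if_neg h2, h1, Pi.single_eq_same, Pi.single_eq_of_ne h2, add_zero, add_zero, hB']
  · by_cases h2 : e.1.2 = i0
    · rw [if_neg h1, if_pos h2, h2, Pi.single_eq_same, Pi.single_eq_of_ne h1, add_zero, zero_add, hB,
        hs (z e.1.1) b]
    · rw [if_neg h1, if_neg h2, Pi.single_eq_of_ne h1, Pi.single_eq_of_ne h2, add_zero, add_zero,
        add_zero, add_zero]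

/-- the radical -/
noncomputable def rad (B : Z → Z → ZMod 2) : Finset Z := univ.filter fun a => ∀ b, B b a = 0

theorem Q_sum (hB : ∀ a b c, B a (b + c) = B a b + B a c) (hs : ∀ a b, B a b = B b a) {k : ℕ}
    (τ : ps (Fin k) → ZMod 2) (hτ : τ ≠ 0) :
    |∑ z : Fin k → Z, ch (Qf B τ z)| * Fintype.card Z ≤
      (Fintype.card Z : ℝ) ^ k * (rad B).card := by
  obtain ⟨e, he⟩ : ∃ e, τ e ≠ 0 := by
    by_contra h
    push Not at h
    exact hτ (funext h)
  have he1 : sx τ e.1.1 e.1.2 = 1 := by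
    rw [sx_mem]
    exact (z2 _).resolve_left he
  set i0 := e.1.1
  have hcard : (0 : ℝ) < Fintype.card Z := by
    have : 0 < Fintype.card Z := Fintype.card_pos
    exact_mod_cast this
  have hB' : ∀ a b c, B (a + b) c = B a c + B b c := by
    intro a b c
    rw [hs, hB, hs c a, hs c b]
  have h1 : (∑ z : Fin k → Z, ch (Qf B τ z)) * Fintype.card Z =
      ∑ z : Fin k → Z, ch (Qf B τ z) *
        (if (∑ j, sx τ i0 j • z j) ∈ rad B then (Fintype.card Z : ℝ) else 0) := by
    have h2 : ∀ b : Z, ∑ z : Fin k → Z, ch (Qf B τ z) =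
        ∑ z : Fin k → Z, ch (Qf B τ z) * ch (B b (∑ j, sx τ i0 j • z j)) := by
      intro b
      rw [← Equiv.sum_comp (Equiv.addRight (Pi.single i0 b : Fin k → Z))]
      refine sum_congr rfl fun z _ => ?_
      rw [Equiv.coe_addRight, Qf_shift hB hs, ch_add]
    have h3 : (∑ z : Fin k → Z, ch (Qf B τ z)) * Fintype.card Z =
        ∑ b : Z, ∑ z : Fin k → Z, ch (Qf B τ z) * ch (B b (∑ j, sx τ i0 j • z j)) := by
      rw [sum_congr rfl fun b (_ : b ∈ (univ : Finset Z)) => (h2 b).symm, sum_const, card_univ,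
        nsmul_eq_mul, mul_comm]
    rw [h3, sum_comm]
    refine sum_congr rfl fun z _ => ?_
    rw [← mul_sum, orthZ (fun b => B b (∑ j, sx τ i0 j • z j)) (fun a b => hB' a b _)]
    congr 1
    unfold rad
    simp only [mem_filter, mem_univ, true_and]
  have h4 : |∑ z : Fin k → Z, ch (Qf B τ z)| * Fintype.card Z ≤
      ((univ.filter fun z : Fin k → Z => ∑ j, sx τ i0 j • z j ∈ rad B).card : ℝ) *
        Fintype.card Z := by
    rw [← abs_of_pos hcard, ← abs_mul, abs_of_pos hcard, h1]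
    refine (abs_sum_le_sum_abs _ _).trans ?_
    rw [card_filter, Nat.cast_sum, sum_mul]
    refine sum_le_sum fun z _ => ?_
    rw [abs_mul, ch_abs, one_mul]
    split_ifs
    · rw [abs_of_pos hcard, Nat.cast_one, one_mul]
    · rw [abs_zero, Nat.cast_zero, zero_mul]
  refine h4.trans (le_of_eq ?_)
  exact comb_card (fun j => sx τ i0 j) e.1.2 he1 (rad B)

theorem bad_card (k : ℕ) (S : Finset Z) :
    ((univ.filter fun z : Fin k → Z => ∃ c : Fin k → ZMod 2, (∃ i, c i ≠ 0) ∧
      ∑ i, c i • z i ∈ S).card : ℝ) * Fintype.card Z ≤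
      2 ^ k * ((Fintype.card Z : ℝ) ^ k * S.card) := by
  have h1 : (univ.filter fun z : Fin k → Z => ∃ c : Fin k → ZMod 2, (∃ i, c i ≠ 0) ∧
      ∑ i, c i • z i ∈ S) ⊆ (univ.filter fun c : Fin k → ZMod 2 => ∃ i, c i ≠ 0).biUnion
        fun c => univ.filter fun z : Fin k → Z => ∑ i, c i • z i ∈ S := by
    intro z hz
    rw [mem_filter] at hz
    obtain ⟨-, c, hc, hz⟩ := hz
    rw [mem_biUnion]
    exact ⟨c, mem_filter.2 ⟨mem_univ _, hc⟩, mem_filter.2 ⟨mem_univ _, hz⟩⟩
  have h2 : ((univ.filter fun z : Fin k → Z => ∃ c : Fin k → ZMod 2, (∃ i, c i ≠ 0) ∧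
      ∑ i, c i • z i ∈ S).card : ℝ) ≤ ∑ c ∈ univ.filter (fun c : Fin k → ZMod 2 => ∃ i, c i ≠ 0),
        ((univ.filter fun z : Fin k → Z => ∑ i, c i • z i ∈ S).card : ℝ) := by
    refine le_trans (Nat.cast_le.2 ((card_le_card h1).trans card_biUnion_le)) ?_
    rw [Nat.cast_sum]
  refine (mul_le_mul_of_nonneg_right h2 (Nat.cast_nonneg _)).trans ?_
  rw [sum_mul]
  refine (sum_le_sum (g := fun _ => (Fintype.card Z : ℝ) ^ k * S.card) fun c hc => ?_).trans ?_
  · rw [mem_filter] at hc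
    obtain ⟨i, hi⟩ := hc.2
    exact (comb_card c i ((z2 _).resolve_left hi) S).le
  · rw [sum_const, nsmul_eq_mul]
    refine mul_le_mul_of_nonneg_right ?_ (by positivity)
    have : (univ.filter (fun c : Fin k → ZMod 2 => ∃ i, c i ≠ 0)).card ≤ 2 ^ k := by
      refine (card_filter_le _ _).trans ?_
      rw [card_univ, Fintype.card_fun, Fintype.card_fin, ZMod.card]
    exact_mod_cast this

theorem card_ps_fin (k : ℕ) : (ps (Fin k)).card ≤ k ^ 2 := by
  unfold ps
  refine (card_filter_le _ _).trans ?_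
  rw [card_univ, Fintype.card_prod, Fintype.card_fin, sq]

/-- the moments -/
theorem mom (hB : ∀ a b c, B a (b + c) = B a b + B a c) (hs : ∀ a b, B a b = B b a) (k : ℕ)
    (S : Finset Z) (G : Finset (Fin k → Z))
    (hG : ∀ z, z ∉ G → ∃ c : Fin k → ZMod 2, (∃ i, c i ≠ 0) ∧ ∑ i, c i • z i ∈ S) :
    |∑ τ : ps (Fin k) → ZMod 2, ∑ z ∈ G, ch (Qf B τ z) - (Fintype.card Z : ℝ) ^ k| *
        Fintype.card Z ≤
      2 ^ k ^ 2 * ((Fintype.card Z : ℝ) ^ k * ((rad B).card + 2 ^ k * S.card)) := by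
  have hcard : (0 : ℝ) < Fintype.card Z := by
    have : 0 < Fintype.card Z := Fintype.card_pos
    exact_mod_cast this
  have hGc : ((Gᶜ).card : ℝ) * Fintype.card Z ≤ 2 ^ k * ((Fintype.card Z : ℝ) ^ k * S.card) := by
    refine le_trans (mul_le_mul_of_nonneg_right ?_ hcard.le) (bad_card k S)
    refine Nat.cast_le.2 (card_le_card fun z hz => ?_)
    rw [mem_compl] at hz
    rw [mem_filter]
    exact ⟨mem_univ _, hG z hz⟩
  have hall : ∀ τ : ps (Fin k) → ZMod 2, ∑ z ∈ G, ch (Qf B τ z) =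
      ∑ z, ch (Qf B τ z) - ∑ z ∈ Gᶜ, ch (Qf B τ z) := by
    intro τ
    rw [← sum_add_sum_compl G]
    ring
  have hc : ∀ τ : ps (Fin k) → ZMod 2, |∑ z ∈ Gᶜ, ch (Qf B τ z)| ≤ (Gᶜ).card := by
    intro τ
    refine (abs_sum_le_sum_abs _ _).trans ?_
    rw [sum_congr rfl fun z _ => ch_abs _, sum_const, nsmul_eq_mul, mul_one]
  have h0 : ∑ z : Fin k → Z, ch (Qf B 0 z) = (Fintype.card Z : ℝ) ^ k := by
    have : ∀ z : Fin k → Z, ch (Qf B 0 z) = 1 := by
      intro z
      unfold Qf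
      rw [sum_eq_zero fun e _ => by rw [Pi.zero_apply, zero_mul], ch_zero]
    rw [sum_congr rfl fun z _ => this z, sum_const, card_univ, nsmul_eq_mul, mul_one,
      Fintype.card_fun, Fintype.card_fin, Nat.cast_pow]
  have h1 : ∀ τ : ps (Fin k) → ZMod 2,
      |∑ z ∈ G, ch (Qf B τ z) - (if τ = 0 then (Fintype.card Z : ℝ) ^ k else 0)| *
        Fintype.card Z ≤ (Fintype.card Z : ℝ) ^ k * ((rad B).card + 2 ^ k * S.card) := by
    intro τ
    have hr : (0 : ℝ) ≤ (Fintype.card Z : ℝ) ^ k * (rad B).card := by positivity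
    by_cases hτ : τ = 0
    · rw [if_pos hτ, hτ, hall, h0, sub_sub_cancel_left, abs_neg]
      have := mul_le_mul_of_nonneg_right (hc 0) hcard.le
      calc |∑ z ∈ Gᶜ, ch (Qf B 0 z)| * (Fintype.card Z : ℝ) ≤ (Gᶜ).card * Fintype.card Z := this
        _ ≤ 2 ^ k * ((Fintype.card Z : ℝ) ^ k * S.card) := hGc
        _ ≤ (Fintype.card Z : ℝ) ^ k * ((rad B).card + 2 ^ k * S.card) := by linarith
    · rw [if_neg hτ, sub_zero, hall]
      have h2 := Q_sum hB hs τ hτ
      have h3 := mul_le_mul_of_nonneg_right (hc τ) hcard.le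
      calc |∑ z, ch (Qf B τ z) - ∑ z ∈ Gᶜ, ch (Qf B τ z)| * (Fintype.card Z : ℝ) ≤
          (|∑ z, ch (Qf B τ z)| + |∑ z ∈ Gᶜ, ch (Qf B τ z)|) * Fintype.card Z :=
            mul_le_mul_of_nonneg_right (abs_sub _ _) hcard.le
        _ ≤ (Fintype.card Z : ℝ) ^ k * ((rad B).card + 2 ^ k * S.card) := by linarith
  have h2 : ∑ τ : ps (Fin k) → ZMod 2, ∑ z ∈ G, ch (Qf B τ z) - (Fintype.card Z : ℝ) ^ k =
      ∑ τ : ps (Fin k) → ZMod 2,
        (∑ z ∈ G, ch (Qf B τ z) - (if τ = 0 then (Fintype.card Z : ℝ) ^ k else 0)) := by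
    rw [sum_sub_distrib, sum_ite_eq' univ (0 : ps (Fin k) → ZMod 2), if_pos (mem_univ _)]
  rw [h2]
  refine (mul_le_mul_of_nonneg_right (abs_sum_le_sum_abs _ _) hcard.le).trans ?_
  rw [sum_mul]
  refine (sum_le_sum fun τ _ => h1 τ).trans ?_
  rw [sum_const, nsmul_eq_mul]
  refine mul_le_mul_of_nonneg_right ?_ (by positivity)
  rw [card_univ, Fintype.card_fun, ZMod.card, Fintype.card_coe]
  push_cast
  exact pow_le_pow_right₀ (by norm_num) (card_ps_fin k)

end mom

end Pool.Agent.N916.GB
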