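import Mathlib
import Pool.Agent.N916.GB.LA1

/-!
# GB-LA, part 2: the number of the completions for which given vectors are solutions
-/

set_option autoImplicit false
set_option linter.all false

open scoped Classical

namespace Pool.Agent.N916.GB

open Finset

section four

variable {J : Type} [Fintype J] [LinearOrder J] {k : ℕ}

/-- the condition on the free symbols -/
def Pc (y e : Fin k → J → ZMod 2) (σ : ps J → ZMod 2) : Prop :=
  ∀ i l, e i l + ∑ m, (y i m + y i l) * sx σ l m = 0

/-- the dual condition -/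
def Tc (y : Fin k → J → ZMod 2) (T : Fin k × J → ZMod 2) : Prop :=
  ∀ a b : J, ∑ i, (T (i, a) + T (i, b)) * (y i a + y i b) = 0

theorem four_id (y : Fin k → J → ZMod 2) (T : Fin k × J → ZMod 2) (σ : ps J → ZMod 2) :
    ∑ il : Fin k × J, T il * ∑ m, (y il.1 m + y il.1 il.2) * sx σ il.2 m =
      ∑ f : ps J, σ f * ∑ i, (T (i, f.1.1) + T (i, f.1.2)) * (y i f.1.1 + y i f.1.2) := by
  have h1 : ∑ il : Fin k × J, T il * ∑ m, (y il.1 m + y il.1 il.2) * sx σ il.2 m =
      ∑ l, ∑ m, sx σ l m * ∑ i, T (i, l) * (y i m + y i l) := by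
    rw [Fintype.sum_prod_type, sum_comm]
    refine sum_congr rfl fun l _ => ?_
    simp only [mul_sum]
    rw [sum_comm]
    refine sum_congr rfl fun m _ => sum_congr rfl fun i _ => ?_
    ring
  rw [h1, sum_sx]
  refine sum_congr rfl fun f _ => ?_
  congr 1
  rw [← sum_add_distrib]
  refine sum_congr rfl fun i _ => ?_
  ring

theorem count_four (y e : Fin k → J → ZMod 2) :
    ((univ.filter fun σ : ps J → ZMod 2 => Pc y e σ).card : ℝ) * 2 ^ (k * Fintype.card J) =
      2 ^ (ps J).card * ∑ T ∈ univ.filter (fun T : Fin k × J → ZMod 2 => Tc y T),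
        ch (∑ il : Fin k × J, T il * e il.1 il.2) := by
  have h1 : ∀ σ : ps J → ZMod 2, (if Pc y e σ then (1 : ℝ) else 0) * 2 ^ (k * Fintype.card J) =
      ∑ T : Fin k × J → ZMod 2, ch (∑ il : Fin k × J, T il *
        (e il.1 il.2 + ∑ m, (y il.1 m + y il.1 il.2) * sx σ il.2 m)) := by
    intro σ
    rw [orth, Fintype.card_prod, Fintype.card_fin]
    have h2 : Pc y e σ ↔ ∀ il : Fin k × J,
        (e il.1 il.2 + ∑ m, (y il.1 m + y il.1 il.2) * sx σ il.2 m) = 0 :=
      ⟨fun h il => h il.1 il.2, fun h i l => h (i, l)⟩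
    by_cases h : Pc y e σ
    · rw [if_pos h, if_pos (h2.1 h), one_mul]
    · rw [if_neg h, if_neg fun h' => h (h2.2 h'), zero_mul]
  rw [card_filter, Nat.cast_sum, sum_mul]
  have h3 : ∀ σ : ps J → ZMod 2, ((if Pc y e σ then 1 else 0 : ℕ) : ℝ) * 2 ^ (k * Fintype.card J) =
      ∑ T : Fin k × J → ZMod 2, ch (∑ il : Fin k × J, T il * e il.1 il.2) *
        ch (∑ f : ps J, σ f * ∑ i, (T (i, f.1.1) + T (i, f.1.2)) * (y i f.1.1 + y i f.1.2)) := by
    intro σ
    rw [Nat.cast_ite, Nat.cast_one, Nat.cast_zero, h1]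
    refine sum_congr rfl fun T _ => ?_
    rw [← four_id, ← ch_add, ← sum_add_distrib]
    refine congrArg ch (sum_congr rfl fun il _ => ?_)
    ring
  rw [sum_congr rfl fun σ _ => h3 σ, sum_comm]
  rw [sum_filter, mul_sum]
  refine sum_congr rfl fun T _ => ?_
  rw [← mul_sum, orth, Fintype.card_coe]
  have h4 : (∀ f : ps J, ∑ i, (T (i, f.1.1) + T (i, f.1.2)) * (y i f.1.1 + y i f.1.2) = 0) ↔
      Tc y T := by
    constructor
    · intro h a b
      rcases lt_trichotomy a b with hab | hab | hab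
      · exact h ⟨(a, b), by unfold ps; rw [mem_filter]; exact ⟨mem_univ _, hab⟩⟩
      · subst hab
        refine sum_eq_zero fun i _ => ?_
        rw [z2_add_self, zero_mul]
      · have := h ⟨(b, a), by unfold ps; rw [mem_filter]; exact ⟨mem_univ _, hab⟩⟩
        rw [← this]
        refine sum_congr rfl fun i _ => ?_
        ring
    · intro h f
      exact h f.1.1 f.1.2
  by_cases h : Tc y T
  · rw [if_pos (h4.2 h), if_pos h, mul_comm]
  · rw [if_neg fun h' => h (h4.1 h'), if_neg h, mul_zero, mul_zero]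

theorem exists_dual (y : Fin k → J → ZMod 2)
    (hy : ∀ c : Fin k → ZMod 2, (∀ l, ∑ i, c i * y i l = 0) → ∀ i, c i = 0) (b : Fin k → ZMod 2) :
    ∃ t : J → ZMod 2, ∀ i, ∑ l, t l * y i l = b i := by
  by_contra hcon
  push Not at hcon
  have h1 : ∑ t : J → ZMod 2, ∑ c : Fin k → ZMod 2, ch (∑ i, c i * (∑ l, t l * y i l + b i)) = 0 := by
    refine sum_eq_zero fun t _ => ?_
    rw [orth, if_neg]
    intro h
    obtain ⟨i, hi⟩ := hcon t
    refine hi ?_
    have h2 := h i
    have h3 : ∑ l, t l * y i l = (∑ l, t l * y i l + b i) + b i := by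
      rw [add_assoc, z2_add_self, add_zero]
    rw [h3, h2, zero_add]
  rw [sum_comm] at h1
  have h2 : ∀ c : Fin k → ZMod 2, ∑ t : J → ZMod 2, ch (∑ i, c i * (∑ l, t l * y i l + b i)) =
      if c = 0 then (2 : ℝ) ^ Fintype.card J else 0 := by
    intro c
    have h3 : ∀ t : J → ZMod 2, ch (∑ i, c i * (∑ l, t l * y i l + b i)) =
        ch (∑ i, c i * b i) * ch (∑ l, t l * ∑ i, c i * y i l) := by
      intro t
      rw [← ch_add]
      refine congrArg ch ?_
      have h4 : ∑ l, t l * ∑ i, c i * y i l = ∑ i, c i * ∑ l, t l * y i l := by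
        simp only [mul_sum]
        rw [sum_comm]
        refine sum_congr rfl fun i _ => sum_congr rfl fun l _ => ?_
        ring
      rw [h4, ← sum_add_distrib]
      refine sum_congr rfl fun i _ => ?_
      ring
    rw [sum_congr rfl fun t _ => h3 t, ← mul_sum, orth]
    by_cases hc : c = 0
    · subst hc
      rw [if_pos rfl, if_pos, sum_eq_zero fun i _ => by rw [Pi.zero_apply, zero_mul], ch_zero, one_mul]
      intro l
      exact sum_eq_zero fun i _ => by rw [Pi.zero_apply, zero_mul]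
    · rw [if_neg hc, if_neg, mul_zero]
      intro h
      exact hc (funext (hy c h))
  rw [sum_congr rfl fun c _ => h2 c, sum_ite_eq' univ (0 : Fin k → ZMod 2), if_pos (mem_univ _)] at h1
  have : (0 : ℝ) < 2 ^ Fintype.card J := by positivity
  linarith

/-- the parametrisation of the dual condition -/
noncomputable def Tm (y : Fin k → J → ZMod 2) (p : (ps (Fin k) → ZMod 2) × (Fin k → ZMod 2))
    (il : Fin k × J) : ZMod 2 := ∑ j, sx p.1 il.1 j * y j il.2 + p.2 il.1

theorem sq_sx {k : ℕ} (τ : ps (Fin k) → ZMod 2) (d : Fin k → ZMod 2) :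
    ∑ i, (∑ j, sx τ i j * d j) * d i = 0 := by
  have h1 : ∑ i, (∑ j, sx τ i j * d j) * d i = ∑ i, ∑ j, sx τ i j * (d j * d i) := by
    refine sum_congr rfl fun i _ => ?_
    rw [sum_mul]
    refine sum_congr rfl fun j _ => ?_
    ring
  rw [h1, sum_sx]
  refine sum_eq_zero fun e _ => ?_
  rw [mul_comm (d e.1.2), z2_add_self, mul_zero]

theorem Tm_mem (y : Fin k → J → ZMod 2) (p : (ps (Fin k) → ZMod 2) × (Fin k → ZMod 2)) :
    Tc y (Tm y p) := by
  intro a b
  have h1 : ∀ i, Tm y p (i, a) + Tm y p (i, b) = ∑ j, sx p.1 i j * (y j a + y j b) := by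
    intro i
    unfold Tm
    have h2 : ∑ j, sx p.1 i j * (y j a + y j b) = ∑ j, sx p.1 i j * y j a + ∑ j, sx p.1 i j * y j b := by
      rw [← sum_add_distrib]
      exact sum_congr rfl fun j _ => mul_add _ _ _
    have h3 := z2_add_self (p.2 i)
    rw [h2]
    linear_combination h3
  rw [sum_congr rfl fun i _ => by rw [h1 i]]
  exact sq_sx p.1 fun j => y j a + y j b

theorem z2_eq_of_add {a b : ZMod 2} (h : a + b = 0) : a = b := by
  revert a b
  decide

theorem Tm_inj (y : Fin k → J → ZMod 2)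
    (hy : ∀ c : Fin k → ZMod 2, (∀ l, ∑ i, c i * y i l = 0) → ∀ i, c i = 0) (k0 : J)
    (hk0 : ∀ i, y i k0 = 0) (p q : (ps (Fin k) → ZMod 2) × (Fin k → ZMod 2))
    (h : Tm y p = Tm y q) : p = q := by
  have h0 : ∀ (p : (ps (Fin k) → ZMod 2) × (Fin k → ZMod 2)) i, Tm y p (i, k0) = p.2 i := by
    intro p i
    unfold Tm
    rw [sum_eq_zero fun j _ => by rw [hk0, mul_zero], zero_add]
  have h2 : p.2 = q.2 := by
    funext i
    rw [← h0 p i, ← h0 q i, h]
  have h1 : p.1 = q.1 := by
    funext e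
    have h3 : ∀ j, sx p.1 e.1.1 j + sx q.1 e.1.1 j = 0 := by
      refine hy (fun j => sx p.1 e.1.1 j + sx q.1 e.1.1 j) fun l => ?_
      have h4 := congrFun h (e.1.1, l)
      unfold Tm at h4
      rw [h2] at h4
      have h5 := add_right_cancel h4
      have h6 : ∑ j, (sx p.1 e.1.1 j + sx q.1 e.1.1 j) * y j l =
          ∑ j, sx p.1 e.1.1 j * y j l + ∑ j, sx q.1 e.1.1 j * y j l := by
        rw [← sum_add_distrib]
        exact sum_congr rfl fun j _ => add_mul _ _ _
      rw [h6, h5, z2_add_self]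
    have h7 := z2_eq_of_add (h3 e.1.2)
    rwa [sx_mem, sx_mem] at h7
  exact Prod.ext h1 h2

theorem Tm_surj (y : Fin k → J → ZMod 2)
    (hy : ∀ c : Fin k → ZMod 2, (∀ l, ∑ i, c i * y i l = 0) → ∀ i, c i = 0) (k0 : J)
    (hk0 : ∀ i, y i k0 = 0) (T : Fin k × J → ZMod 2) (hT : Tc y T) : ∃ p, Tm y p = T := by
  -- the dual family
  have hd := fun i => exists_dual y hy (fun j => if i = j then 1 else 0)
  choose t ht using hd
  -- the normalised solution
  set T' : Fin k → J → ZMod 2 := fun i l => T (i, l) + T (i, k0) with hT'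
  set A : J → J → ZMod 2 := fun a b => ∑ i, T' i a * y i b with hA
  have hA0 : ∀ a, A a a = 0 := by
    intro a
    have h := hT a k0
    rw [hA]
    refine Eq.trans (sum_congr rfl fun i _ => ?_) h
    rw [hT', hk0, add_zero]
  have hAs : ∀ a b, A a b = A b a := by
    intro a b
    have h := hT a b
    have h1 : A a a + A a b + A b a + A b b = 0 := by
      rw [hA]
      rw [← sum_add_distrib, ← sum_add_distrib, ← sum_add_distrib]
      refine Eq.trans (sum_congr rfl fun i _ => ?_) h
      rw [hT']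
      have h3 := z2_add_self (T (i, k0))
      linear_combination (y i a + y i b) * h3
    rw [hA0, hA0, zero_add, add_zero] at h1
    exact z2_eq_of_add h1
  have hT1 : ∀ i a, T' i a = ∑ l, t i l * A l a := by
    intro i a
    have h1 : T' i a = ∑ j, T' j a * ∑ l, t i l * y j l := by
      rw [sum_congr rfl fun j _ => by rw [ht i j]]
      rw [sum_eq_single i]
      · rw [if_pos rfl, mul_one]
      · intro j _ hj
        rw [if_neg (Ne.symm hj), mul_zero]
      · intro h
        exact absurd (mem_univ i) h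
    rw [h1]
    have h2 : ∑ l, t i l * A l a = ∑ l, t i l * A a l := sum_congr rfl fun l _ => by rw [hAs]
    rw [h2, hA]
    simp only [mul_sum]
    rw [sum_comm]
    refine sum_congr rfl fun l _ => sum_congr rfl fun j _ => ?_
    ring
  set D : Fin k → Fin k → ZMod 2 := fun i j => ∑ l, t i l * T' j l with hD
  have hT2 : ∀ i a, T' i a = ∑ j, D i j * y j a := by
    intro i a
    rw [hT1, hD, hA]
    simp only [mul_sum, sum_mul]
    rw [sum_comm]
    refine sum_congr rfl fun l _ => sum_congr rfl fun j _ => ?_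
    ring
  have hD1 : ∀ i j, D i j = ∑ l, ∑ m, t i l * (t j m * A m l) := by
    intro i j
    rw [hD]
    refine sum_congr rfl fun l _ => ?_
    rw [hT1 j l, mul_sum]
  have hDs : ∀ i j, D i j = D j i := by
    intro i j
    rw [hD1, hD1, sum_comm]
    refine sum_congr rfl fun l _ => sum_congr rfl fun m _ => ?_
    rw [hAs]
    ring
  have hD0 : ∀ i, D i i = 0 := by
    intro i
    rw [hD1, sum_split]
    rw [sum_eq_zero fun l _ => by rw [hA0, mul_zero, mul_zero], zero_add]
    refine sum_eq_zero fun e _ => ?_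
    rw [hAs e.2 e.1]
    have h3 := z2_add_self (t i e.1 * (t i e.2 * A e.1 e.2))
    linear_combination h3
  refine ⟨(fun e => D e.1.1 e.1.2, fun i => T (i, k0)), ?_⟩
  have hsx : ∀ i j, sx (fun e : ps (Fin k) => D e.1.1 e.1.2) i j = D i j := by
    intro i j
    rcases lt_trichotomy i j with hij | hij | hij
    · have hm : (i, j) ∈ ps (Fin k) := by
        unfold ps
        rw [mem_filter]
        exact ⟨mem_univ _, hij⟩
      exact sx_mem (fun e : ps (Fin k) => D e.1.1 e.1.2) ⟨(i, j), hm⟩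
    · subst hij
      rw [sx_diag, hD0]
    · have hm : (j, i) ∈ ps (Fin k) := by
        unfold ps
        rw [mem_filter]
        exact ⟨mem_univ _, hij⟩
      rw [sx_symm, hDs]
      exact sx_mem (fun e : ps (Fin k) => D e.1.1 e.1.2) ⟨(j, i), hm⟩
  funext il
  unfold Tm
  rw [sum_congr rfl fun j _ => by rw [hsx il.1 j], ← hT2 il.1 il.2]
  rw [hT']
  have h3 := z2_add_self (T (il.1, k0))
  linear_combination h3

/-- the number of the completions -/
theorem count_val (y e : Fin k → J → ZMod 2)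
    (hy : ∀ c : Fin k → ZMod 2, (∀ l, ∑ i, c i * y i l = 0) → ∀ i, c i = 0) (k0 : J)
    (hk0 : ∀ i, y i k0 = 0) (hS : ∀ i, ∑ l, e i l = 0) :
    ((univ.filter fun σ : ps J → ZMod 2 => Pc y e σ).card : ℝ) * 2 ^ (k * Fintype.card J) =
      2 ^ (ps J).card * (2 ^ k * ∑ τ : ps (Fin k) → ZMod 2, ch (∑ f : ps (Fin k), τ f *
        ∑ l, (y f.1.1 l * e f.1.2 l + y f.1.2 l * e f.1.1 l))) := by
  rw [count_four]
  congr 1
  have h1 : ∑ T ∈ univ.filter (fun T : Fin k × J → ZMod 2 => Tc y T),
        ch (∑ il : Fin k × J, T il * e il.1 il.2) =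
      ∑ p : (ps (Fin k) → ZMod 2) × (Fin k → ZMod 2),
        ch (∑ il : Fin k × J, Tm y p il * e il.1 il.2) := by
    symm
    refine sum_bij (fun p _ => Tm y p) (fun p _ => ?_) (fun p _ q _ h => Tm_inj y hy k0 hk0 p q h)
      (fun T hT => ?_) (fun p _ => rfl)
    · rw [mem_filter]
      exact ⟨mem_univ _, Tm_mem y p⟩
    · rw [mem_filter] at hT
      obtain ⟨p, hp⟩ := Tm_surj y hy k0 hk0 T hT.2
      exact ⟨p, mem_univ _, hp⟩
  rw [h1, Fintype.sum_prod_type, mul_sum]
  refine sum_congr rfl fun τ _ => ?_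
  have h2 : ∀ c : Fin k → ZMod 2, ch (∑ il : Fin k × J, Tm y (τ, c) il * e il.1 il.2) =
      ch (∑ f : ps (Fin k), τ f * ∑ l, (y f.1.1 l * e f.1.2 l + y f.1.2 l * e f.1.1 l)) := by
    intro c
    refine congrArg ch ?_
    have h3 : ∑ il : Fin k × J, Tm y (τ, c) il * e il.1 il.2 =
        ∑ i, ∑ j, sx τ i j * (∑ l, y j l * e i l) + ∑ i, c i * ∑ l, e i l := by
      rw [Fintype.sum_prod_type, ← sum_add_distrib]
      refine sum_congr rfl fun i _ => ?_
      unfold Tm
      simp only [add_mul, sum_add_distrib, mul_sum, sum_mul]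
      congr 1
      rw [sum_comm]
      refine sum_congr rfl fun l _ => sum_congr rfl fun j _ => ?_
      ring
    have h4 : ∑ i, c i * ∑ l, e i l = 0 := sum_eq_zero fun i _ => by rw [hS i, mul_zero]
    rw [h3, h4, add_zero, sum_sx]
    refine sum_congr rfl fun f _ => ?_
    congr 1
    rw [← sum_add_distrib]
    refine sum_congr rfl fun l _ => ?_
    ring
  rw [sum_congr rfl fun c _ => h2 c, sum_const, card_univ, Fintype.card_fun, ZMod.card,
    Fintype.card_fin, nsmul_eq_mul]
  push_cast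
  ring

end four

end Pool.Agent.N916.GB
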