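import Mathlib
import Pool.Agent.N916.GB.LA2

/-!
# GB-LA, part 3: the solution spaces
-/

set_option autoImplicit false
set_option linter.all false

open scoped Classical

namespace Pool.Agent.N916.GB

open Finset

section rel

variable {V : Type} [Fintype V]

/-- the equations -/
def Ev (M : V → V → ZMod 2) (x : V → ZMod 2) (q : V) : ZMod 2 := ∑ p, (x p + x q) * M q p

/-- the alternating form -/
def om (u x y : V → ZMod 2) : ZMod 2 :=
  (∑ q, u q * x q) * (∑ q, u q * y q) + ∑ q, u q * (x q * y q)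

theorem Ev_add (M : V → V → ZMod 2) (x y : V → ZMod 2) (q : V) :
    Ev M (x + y) q = Ev M x q + Ev M y q := by
  unfold Ev
  rw [← sum_add_distrib]
  refine sum_congr rfl fun p _ => ?_
  rw [Pi.add_apply, Pi.add_apply]
  ring

theorem Ev_zero (M : V → V → ZMod 2) (q : V) : Ev M 0 q = 0 := by
  unfold Ev
  refine sum_eq_zero fun p _ => ?_
  rw [Pi.zero_apply, Pi.zero_apply, add_zero, zero_mul]

theorem Ev_smul (M : V → V → ZMod 2) (c : ZMod 2) (x : V → ZMod 2) (q : V) :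
    Ev M (c • x) q = c * Ev M x q := by
  unfold Ev
  rw [mul_sum]
  refine sum_congr rfl fun p _ => ?_
  rw [Pi.smul_apply, Pi.smul_apply, smul_eq_mul, smul_eq_mul]
  ring

theorem Ev_const (M : V → V → ZMod 2) (c : ZMod 2) (q : V) : Ev M (fun _ => c) q = 0 := by
  unfold Ev
  refine sum_eq_zero fun p _ => ?_
  rw [z2_add_self, zero_mul]

theorem om_symm (u x y : V → ZMod 2) : om u x y = om u y x := by
  unfold om
  rw [mul_comm]
  congr 1
  exact sum_congr rfl fun q _ => by rw [mul_comm (x q)]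

theorem om_add (u x y z : V → ZMod 2) : om u x (y + z) = om u x y + om u x z := by
  unfold om
  simp only [Pi.add_apply, mul_add, sum_add_distrib]
  ring

theorem z2_sq (a : ZMod 2) : a * a = a := by
  rcases z2 a with rfl | rfl <;> decide

theorem rel (w u : V → ZMod 2) (M : V → V → ZMod 2)
    (h3 : ∀ i j, i ≠ j → w i * M i j + w j * M j i = u i * u j) (x y : V → ZMod 2) :
    ∑ q, w q * (x q * Ev M y q + y q * Ev M x q) = om u x y := by
  letI : LinearOrder V := LinearOrder.lift' (Fintype.equivFin V) (Fintype.equivFin V).injective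
  have h1 : ∑ q, w q * (x q * Ev M y q + y q * Ev M x q) =
      ∑ q, ∑ p, w q * M q p * (x q * y p + y q * x p) := by
    refine sum_congr rfl fun q _ => ?_
    unfold Ev
    rw [mul_sum, mul_sum, ← sum_add_distrib, mul_sum]
    refine sum_congr rfl fun p _ => ?_
    have h := z2_add_self (x q * y q)
    linear_combination (w q * M q p) * h
  have h2 : (∑ q, u q * x q) * (∑ q, u q * y q) = ∑ q, ∑ p, (u q * x q) * (u p * y p) := by
    rw [sum_mul_sum]
  rw [h1, om, h2, sum_split, sum_split (fun q p => (u q * x q) * (u p * y p))]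
  have h4 : ∑ q, w q * M q q * (x q * y q + y q * x q) = 0 := by
    refine sum_eq_zero fun q _ => ?_
    rw [mul_comm (y q), z2_add_self, mul_zero]
  have h5 : ∑ q, (u q * x q) * (u q * y q) = ∑ q, u q * (x q * y q) := by
    refine sum_congr rfl fun q _ => ?_
    have := z2_sq (u q)
    linear_combination (x q * y q) * this
  have h6 : ∑ e ∈ ps V, (w e.1 * M e.1 e.2 * (x e.1 * y e.2 + y e.1 * x e.2) +
      w e.2 * M e.2 e.1 * (x e.2 * y e.1 + y e.2 * x e.1)) =
      ∑ e ∈ ps V, ((u e.1 * x e.1) * (u e.2 * y e.2) + (u e.2 * x e.2) * (u e.1 * y e.1)) := by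
    refine sum_congr rfl fun e he => ?_
    unfold ps at he
    rw [mem_filter] at he
    have h7 := h3 e.1 e.2 he.2.ne
    linear_combination (x e.1 * y e.2 + y e.1 * x e.2) * h7
  rw [h4, h5, h6]
  have h8 := z2_add_self (∑ q, u q * (x q * y q))
  linear_combination -h8

theorem relrow (w u : V → ZMod 2) (M : V → V → ZMod 2)
    (h3 : ∀ i j, i ≠ j → w i * M i j + w j * M j i = u i * u j) (hu : ∑ i, u i = 1)
    (x : V → ZMod 2) : ∑ q, w q * Ev M x q = 0 := by
  have h := rel w u M h3 x (fun _ => 1)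
  have h1 : ∑ q, w q * (x q * Ev M (fun _ => 1) q + 1 * Ev M x q) = ∑ q, w q * Ev M x q := by
    refine sum_congr rfl fun q _ => ?_
    rw [Ev_const, mul_zero, zero_add, one_mul]
  rw [h1] at h
  rw [h]
  unfold om
  have h2 : ∑ q, u q * 1 = 1 := (sum_congr rfl fun q _ => mul_one (u q)).trans hu
  rw [h2, mul_one]
  have h3 : ∑ q, u q * (x q * 1) = ∑ q, u q * x q := sum_congr rfl fun q _ => by rw [mul_one]
  rw [h3, z2_add_self]

end rel

section conc

variable {U J : Type} [Fintype U] [Fintype J] [LinearOrder J]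

theorem Ev_inl (N : U ⊕ J → U ⊕ J → ZMod 2) (δ : J → J → ZMod 2) (x : U ⊕ J → ZMod 2) (v : U) :
    Ev (pt N δ) x (Sum.inl v) = Ev N x (Sum.inl v) := by
  unfold Ev
  rw [Fintype.sum_sum_type, Fintype.sum_sum_type]
  rfl

theorem Ev_inr (N : U ⊕ J → U ⊕ J → ZMod 2) (δ : J → J → ZMod 2) (x : U ⊕ J → ZMod 2) (l : J) :
    Ev (pt N δ) x (Sum.inr l) = Ev N x (Sum.inr l) +
      ∑ m, (x (Sum.inr m) + x (Sum.inr l)) * δ l m := by
  unfold Ev
  rw [Fintype.sum_sum_type, Fintype.sum_sum_type, add_assoc, ← sum_add_distrib]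
  congr 1
  refine sum_congr rfl fun m _ => ?_
  rw [← mul_add]
  rfl

/-- the solutions of the rows of the small primes -/
def Zs (N : U ⊕ J → U ⊕ J → ZMod 2) (k0 : J) : Submodule (ZMod 2) (U ⊕ J → ZMod 2) where
  carrier := {x | x (Sum.inr k0) = 0 ∧ ∀ v, Ev N x (Sum.inl v) = 0}
  add_mem' := by
    rintro x y ⟨hx1, hx2⟩ ⟨hy1, hy2⟩
    refine ⟨?_, fun v => ?_⟩
    · rw [Pi.add_apply, hx1, hy1, add_zero]
    · rw [Ev_add, hx2, hy2, add_zero]
  zero_mem' := ⟨rfl, fun v => Ev_zero _ _⟩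
  smul_mem' := by
    rintro c x ⟨hx1, hx2⟩
    refine ⟨?_, fun v => ?_⟩
    · rw [Pi.smul_apply, hx1, smul_zero]
    · rw [Ev_smul, hx2, mul_zero]

theorem mem_Zs {N : U ⊕ J → U ⊕ J → ZMod 2} {k0 : J} {x : U ⊕ J → ZMod 2} :
    x ∈ Zs N k0 ↔ x (Sum.inr k0) = 0 ∧ ∀ v, Ev N x (Sum.inl v) = 0 := Iff.rfl

/-- the normalised solutions -/
def Kr (M : U ⊕ J → U ⊕ J → ZMod 2) (k0 : J) : Submodule (ZMod 2) (U ⊕ J → ZMod 2) where
  carrier := {x | x (Sum.inr k0) = 0 ∧ ∀ q, Ev M x q = 0}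
  add_mem' := by
    rintro x y ⟨hx1, hx2⟩ ⟨hy1, hy2⟩
    refine ⟨?_, fun v => ?_⟩
    · rw [Pi.add_apply, hx1, hy1, add_zero]
    · rw [Ev_add, hx2, hy2, add_zero]
  zero_mem' := ⟨rfl, fun v => Ev_zero _ _⟩
  smul_mem' := by
    rintro c x ⟨hx1, hx2⟩
    refine ⟨?_, fun v => ?_⟩
    · rw [Pi.smul_apply, hx1, smul_zero]
    · rw [Ev_smul, hx2, mul_zero]

theorem mem_Kr {M : U ⊕ J → U ⊕ J → ZMod 2} {k0 : J} {x : U ⊕ J → ZMod 2} :
    x ∈ Kr M k0 ↔ x (Sum.inr k0) = 0 ∧ ∀ q, Ev M x q = 0 := Iff.rfl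

theorem Gv_iff (M : U ⊕ J → U ⊕ J → ZMod 2) (k0 : J) :
    Gv M ↔ Module.finrank (ZMod 2) (Kr M k0) = 0 := by
  rw [Submodule.finrank_eq_zero]
  constructor
  · intro h
    rw [Submodule.eq_bot_iff]
    intro x hx
    rw [mem_Kr] at hx
    funext p
    rw [h x hx.2 p (Sum.inr k0), hx.1]
    rfl
  · intro h x hx p q
    have h1 : (x + fun _ => x (Sum.inr k0)) ∈ Kr M k0 := by
      rw [mem_Kr]
      refine ⟨?_, fun q => ?_⟩
      · rw [Pi.add_apply, z2_add_self]
      · rw [Ev_add, Ev_const, add_zero]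
        exact hx q
    rw [h, Submodule.mem_bot] at h1
    have h2 : ∀ p, x p = x (Sum.inr k0) := by
      intro p
      have := congrFun h1 p
      rw [Pi.add_apply] at this
      exact z2_eq_of_add this
    rw [h2 p, h2 q]

noncomputable instance instZ (N : U ⊕ J → U ⊕ J → ZMod 2) (k0 : J) : Fintype (Zs N k0) :=
  Fintype.ofFinite _

theorem Zs_coe_sum {N : U ⊕ J → U ⊕ J → ZMod 2} {k0 : J} {k : ℕ} (c : Fin k → ZMod 2)
    (z : Fin k → Zs N k0) (q : U ⊕ J) :
    ((∑ i, c i • z i : Zs N k0) : U ⊕ J → ZMod 2) q = ∑ i, c i * (z i : U ⊕ J → ZMod 2) q := by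
  rw [AddSubmonoidClass.coe_finsetSum, Finset.sum_apply]
  refine sum_congr rfl fun i _ => ?_
  rw [Submodule.coe_smul, Pi.smul_apply, smul_eq_mul]

/-- the large coordinates of a tuple -/
def yy {N : U ⊕ J → U ⊕ J → ZMod 2} {k0 : J} {k : ℕ} (z : Fin k → Zs N k0) (i : Fin k) (l : J) :
    ZMod 2 := (z i : U ⊕ J → ZMod 2) (Sum.inr l)

/-- the equations of a tuple -/
def ee {N : U ⊕ J → U ⊕ J → ZMod 2} {k0 : J} {k : ℕ} (z : Fin k → Zs N k0) (i : Fin k) (l : J) :
    ZMod 2 := Ev N (z i : U ⊕ J → ZMod 2) (Sum.inr l)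

theorem Kr_iff {N : U ⊕ J → U ⊕ J → ZMod 2} {k0 : J} {k : ℕ} (z : Fin k → Zs N k0)
    (σ : ps J → ZMod 2) :
    (∀ i, (z i : U ⊕ J → ZMod 2) ∈ Kr (pt N (sx σ)) k0) ↔ Pc (yy z) (ee z) σ := by
  unfold Pc
  constructor
  · intro h i l
    have h1 := (mem_Kr.1 (h i)).2 (Sum.inr l)
    rw [Ev_inr] at h1
    exact h1
  · intro h i
    rw [mem_Kr]
    refine ⟨(mem_Zs.1 (z i).2).1, ?_⟩
    rintro (v | l)
    · rw [Ev_inl]
      exact (mem_Zs.1 (z i).2).2 v
    · rw [Ev_inr]
      exact h i l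

theorem Kr_le (N : U ⊕ J → U ⊕ J → ZMod 2) (k0 : J) (σ : ps J → ZMod 2) :
    Kr (pt N (sx σ)) k0 ≤ Zs N k0 := by
  intro x hx
  rw [mem_Kr] at hx
  rw [mem_Zs]
  refine ⟨hx.1, fun v => ?_⟩
  rw [← Ev_inl N (sx σ)]
  exact hx.2 _

theorem card_Kr (N : U ⊕ J → U ⊕ J → ZMod 2) (k0 : J) (k : ℕ) (σ : ps J → ZMod 2) :
    In k (Module.finrank (ZMod 2) (Kr (pt N (sx σ)) k0)) =
      ((univ.filter fun z : Fin k → Zs N k0 => LinearIndependent (ZMod 2) z ∧
        Pc (yy z) (ee z) σ).card : ℝ) := by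
  rw [← card_li k]
  have h1 : ((univ.filter fun z : Fin k → Zs N k0 => LinearIndependent (ZMod 2) z ∧
      Pc (yy z) (ee z) σ).card) = Nat.card {z : Fin k → Zs N k0 // LinearIndependent (ZMod 2) z ∧
      Pc (yy z) (ee z) σ} := by
    rw [Nat.card_eq_fintype_card, Fintype.card_subtype]
  rw [h1]
  norm_cast
  have hle := Kr_le N k0 σ
  refine Nat.card_congr ⟨fun s => ⟨fun i => ⟨(s.1 i : U ⊕ J → ZMod 2), hle (s.1 i).2⟩, ?_, ?_⟩,
    fun z => ⟨fun i => ⟨(z.1 i : U ⊕ J → ZMod 2), (Kr_iff z.1 σ).2 z.2.2 i⟩, ?_⟩, ?_, ?_⟩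
  · have h2 := s.2
    rw [← LinearMap.linearIndependent_iff (Submodule.subtype _) (Submodule.ker_subtype _)] at h2 ⊢
    exact h2
  · exact (Kr_iff _ σ).1 fun i => (s.1 i).2
  · have h2 := z.2.1
    rw [← LinearMap.linearIndependent_iff (Submodule.subtype _) (Submodule.ker_subtype _)] at h2 ⊢
    exact h2
  · intro s
    rfl
  · intro z
    rfl

/-- the good tuples -/
noncomputable def GG (N : U ⊕ J → U ⊕ J → ZMod 2) (k0 : J) (k : ℕ) : Finset (Fin k → Zs N k0) :=
  univ.filter fun z => ∀ c : Fin k → ZMod 2, (∀ l, ∑ i, c i * yy z i l = 0) → ∀ i, c i = 0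

theorem GG_li {N : U ⊕ J → U ⊕ J → ZMod 2} {k0 : J} {k : ℕ} {z : Fin k → Zs N k0}
    (hz : z ∈ GG N k0 k) : LinearIndependent (ZMod 2) z := by
  unfold GG at hz
  rw [mem_filter] at hz
  rw [Fintype.linearIndependent_iff]
  intro c hc
  refine hz.2 c fun l => ?_
  have h1 := Zs_coe_sum c z (Sum.inr l)
  rw [hc] at h1
  exact h1.symm

variable {w u : U ⊕ J → ZMod 2} {N : U ⊕ J → U ⊕ J → ZMod 2}

theorem li_GG (hw : ∀ k, w (Sum.inr k) = 1)
    (h3 : ∀ i j, i ≠ j → w i * N i j + w j * N j i = u i * u j)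
    (h4 : ∀ v, w (Sum.inl v) = 0 → u (Sum.inl v) = 1 ∧ ∀ v', w (Sum.inl v') = 0 → v = v')
    (h5 : ∀ (b : U → ZMod 2) (s : ZMod 2), ((∃ v, b v ≠ 0) ∨ s ≠ 0) →
      ∃ k, ∑ v, b v * N (Sum.inl v) (Sum.inr k) + s * u (Sum.inr k) ≠ 0)
    {k0 : J} {k : ℕ} {z : Fin k → Zs N k0} (hz : LinearIndependent (ZMod 2) z) {σ : ps J → ZMod 2}
    (hσ : Pc (yy z) (ee z) σ) : z ∈ GG N k0 k := by
  unfold GG
  rw [mem_filter]
  refine ⟨mem_univ _, fun c hc => ?_⟩
  rw [Fintype.linearIndependent_iff] at hz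
  refine hz c ?_
  set a : Zs N k0 := ∑ i, c i • z i with ha
  have hal : ∀ l, (a : U ⊕ J → ZMod 2) (Sum.inr l) = 0 := by
    intro l
    rw [ha, Zs_coe_sum]
    exact hc l
  have haK : (a : U ⊕ J → ZMod 2) ∈ Kr (pt N (sx σ)) k0 := by
    have h1 := (Kr_iff z σ).2 hσ
    rw [ha, AddSubmonoidClass.coe_finsetSum]
    refine Submodule.sum_mem _ fun i _ => ?_
    rw [Submodule.coe_smul]
    exact Submodule.smul_mem _ _ (h1 i)
  have h6 : ∀ l, ∑ v, (a : U ⊕ J → ZMod 2) (Sum.inl v) * N (Sum.inr l) (Sum.inl v) = 0 := by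
    intro l
    have h7 := (mem_Kr.1 haK).2 (Sum.inr l)
    rw [Ev_inr] at h7
    have h8 : ∑ m, ((a : U ⊕ J → ZMod 2) (Sum.inr m) + (a : U ⊕ J → ZMod 2) (Sum.inr l)) *
        sx σ l m = 0 := by
      refine sum_eq_zero fun m _ => ?_
      rw [hal, hal, add_zero, zero_mul]
    rw [h8, add_zero] at h7
    unfold Ev at h7
    rw [Fintype.sum_sum_type] at h7
    have h9 : ∑ m, ((a : U ⊕ J → ZMod 2) (Sum.inr m) + (a : U ⊕ J → ZMod 2) (Sum.inr l)) *
        N (Sum.inr l) (Sum.inr m) = 0 := by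
      refine sum_eq_zero fun m _ => ?_
      rw [hal, hal, add_zero, zero_mul]
    rw [h9, add_zero] at h7
    rw [← h7]
    refine sum_congr rfl fun v _ => ?_
    rw [hal, add_zero]
  have h7 : ∀ l, ∑ v, ((a : U ⊕ J → ZMod 2) (Sum.inl v) * w (Sum.inl v)) *
      N (Sum.inl v) (Sum.inr l) +
      (∑ v, (a : U ⊕ J → ZMod 2) (Sum.inl v) * u (Sum.inl v)) * u (Sum.inr l) = 0 := by
    intro l
    rw [← h6 l, sum_mul, ← sum_add_distrib]
    refine sum_congr rfl fun v _ => ?_
    have h8 := h3 (Sum.inr l) (Sum.inl v) (by simp)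
    rw [hw, one_mul] at h8
    have h9 := z2_add_self ((a : U ⊕ J → ZMod 2) (Sum.inl v) * (w (Sum.inl v) *
      N (Sum.inl v) (Sum.inr l)))
    linear_combination -((a : U ⊕ J → ZMod 2) (Sum.inl v)) * h8 + h9
  have h8 : (∀ v, (a : U ⊕ J → ZMod 2) (Sum.inl v) * w (Sum.inl v) = 0) ∧
      ∑ v, (a : U ⊕ J → ZMod 2) (Sum.inl v) * u (Sum.inl v) = 0 := by
    by_contra hcon
    have h9 : (∃ v, (a : U ⊕ J → ZMod 2) (Sum.inl v) * w (Sum.inl v) ≠ 0) ∨
        ∑ v, (a : U ⊕ J → ZMod 2) (Sum.inl v) * u (Sum.inl v) ≠ 0 := by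
      by_contra h10
      push Not at h10
      exact hcon h10
    obtain ⟨l, hl⟩ := h5 (fun v => (a : U ⊕ J → ZMod 2) (Sum.inl v) * w (Sum.inl v)) _ h9
    exact hl (h7 l)
  have h9 : ∀ v, (a : U ⊕ J → ZMod 2) (Sum.inl v) = 0 := by
    intro v
    rcases z2 (w (Sum.inl v)) with h | h
    · obtain ⟨h10, h11⟩ := h4 v h
      have h12 := h8.2
      rw [sum_eq_single v] at h12
      · rw [h10, mul_one] at h12
        exact h12
      · intro v' _ hv'
        rcases z2 (w (Sum.inl v')) with h' | h'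
        · exact absurd (h11 v' h').symm hv'
        · have := h8.1 v'
          rw [h', mul_one] at this
          rw [this, zero_mul]
      · intro h
        exact absurd (mem_univ v) h
    · have := h8.1 v
      rw [h, mul_one] at this
      exact this
  refine Subtype.ext (funext fun q => ?_)
  rcases q with v | l
  · exact h9 v
  · exact hal l

theorem sum_ee (hw : ∀ k, w (Sum.inr k) = 1) (hu : ∑ i, u i = 1)
    (h3 : ∀ i j, i ≠ j → w i * N i j + w j * N j i = u i * u j) {k0 : J} {k : ℕ}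
    (z : Fin k → Zs N k0) (i : Fin k) : ∑ l, ee z i l = 0 := by
  have h := relrow w u N h3 hu (z i : U ⊕ J → ZMod 2)
  rw [Fintype.sum_sum_type] at h
  rw [sum_eq_zero fun v _ => by rw [(mem_Zs.1 (z i).2).2 v, mul_zero], zero_add] at h
  rw [← h]
  refine sum_congr rfl fun l _ => ?_
  rw [hw, one_mul]
  rfl

theorem form_ee (hw : ∀ k, w (Sum.inr k) = 1)
    (h3 : ∀ i j, i ≠ j → w i * N i j + w j * N j i = u i * u j) {k0 : J} {k : ℕ}
    (z : Fin k → Zs N k0) (i j : Fin k) : ∑ l, (yy z i l * ee z j l + yy z j l * ee z i l) =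
      om u (z i : U ⊕ J → ZMod 2) (z j : U ⊕ J → ZMod 2) := by
  have h := rel w u N h3 (z i : U ⊕ J → ZMod 2) (z j : U ⊕ J → ZMod 2)
  rw [Fintype.sum_sum_type] at h
  rw [sum_eq_zero fun v _ => by
    rw [(mem_Zs.1 (z i).2).2 v, (mem_Zs.1 (z j).2).2 v, mul_zero, mul_zero, add_zero, mul_zero],
    zero_add] at h
  rw [← h]
  refine sum_congr rfl fun l _ => ?_
  rw [hw, one_mul]
  rfl

/-- the size of the space -/
theorem card_Zs (h5 : ∀ (b : U → ZMod 2) (s : ZMod 2), ((∃ v, b v ≠ 0) ∨ s ≠ 0) →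
      ∃ k, ∑ v, b v * N (Sum.inl v) (Sum.inr k) + s * u (Sum.inr k) ≠ 0) (k0 : J) :
    (Fintype.card (Zs N k0) : ℝ) * 2 = 2 ^ Fintype.card J := by
  -- the linear forms
  set aa : (U ⊕ J → ZMod 2) → Option U → ZMod 2 := fun x o =>
    Option.elim o (x (Sum.inr k0)) (fun v => Ev N x (Sum.inl v)) with haa
  set L : (Option U → ZMod 2) → U ⊕ J → ZMod 2 := fun t q =>
    ∑ v, t (some v) * N (Sum.inl v) q +
      Sum.elim (fun v => t (some v) * ∑ p, N (Sum.inl v) p) (fun l => if l = k0 then t none else 0) q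
    with hL
  have hid : ∀ x t, ∑ o, t o * aa x o = ∑ q, x q * L t q := by
    intro x t
    have h1 : ∑ q, x q * L t q = ∑ q, x q * ∑ v, t (some v) * N (Sum.inl v) q +
        (∑ v, x (Sum.inl v) * (t (some v) * ∑ p, N (Sum.inl v) p) + x (Sum.inr k0) * t none) := by
      rw [hL]
      simp only [mul_add, sum_add_distrib]
      congr 1
      rw [Fintype.sum_sum_type]
      congr 1
      simp only [Sum.elim_inr, mul_ite, mul_zero]
      rw [sum_ite_eq', if_pos (mem_univ _)]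
    rw [h1, Fintype.sum_option, haa]
    simp only [Option.elim_none, Option.elim_some]
    have h2 : ∑ v, t (some v) * Ev N x (Sum.inl v) = ∑ q, x q * ∑ v, t (some v) * N (Sum.inl v) q +
        ∑ v, x (Sum.inl v) * (t (some v) * ∑ p, N (Sum.inl v) p) := by
      simp only [mul_sum]
      rw [sum_comm (s := (univ : Finset (U ⊕ J))), ← sum_add_distrib]
      refine sum_congr rfl fun v _ => ?_
      unfold Ev
      rw [mul_sum, ← sum_add_distrib]
      refine sum_congr rfl fun p _ => ?_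
      ring
    rw [h2]
    ring
  have hL0 : ∀ t, (∀ q, L t q = 0) ↔ t = 0 := by
    intro t
    constructor
    · intro h
      have h1 : ∑ q, L t q = 0 := sum_eq_zero fun q _ => h q
      have h2 : ∑ q, L t q = t none := by
        rw [hL]
        simp only [sum_add_distrib]
        rw [Fintype.sum_sum_type (fun q => Sum.elim (fun v => t (some v) * ∑ p, N (Sum.inl v) p)
          (fun l => if l = k0 then t none else 0) q)]
        simp only [Sum.elim_inr, Sum.elim_inl]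
        rw [sum_ite_eq', if_pos (mem_univ _), sum_comm]
        have h3 : ∑ v, ∑ q, t (some v) * N (Sum.inl v) q = ∑ v, t (some v) * ∑ p, N (Sum.inl v) p :=
          sum_congr rfl fun v _ => (mul_sum _ _ _).symm
        rw [h3, ← add_assoc, z2_add_self, zero_add]
      rw [h2] at h1
      have h4 : ∀ v, t (some v) = 0 := by
        by_contra hcon
        push Not at hcon
        obtain ⟨l, hl⟩ := h5 (fun v => t (some v)) 0 (Or.inl hcon)
        refine hl ?_
        have h5 := h (Sum.inr l)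
        rw [hL] at h5
        simp only [Sum.elim_inr] at h5
        rw [h1, ite_self, add_zero] at h5
        rw [h5, zero_mul, zero_add]
      funext o
      rcases o with _ | v
      · exact h1
      · exact h4 v
    · intro h q
      subst h
      rw [hL]
      rcases q with v | l
      · simp
      · simp
  have hZ : (Fintype.card (Zs N k0) : ℝ) = ∑ x : U ⊕ J → ZMod 2, if x ∈ Zs N k0 then (1 : ℝ) else 0 := by
    rw [← sum_filter, sum_const, nsmul_eq_mul, mul_one, Fintype.card_subtype]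
  have hZ2 : ∀ x : U ⊕ J → ZMod 2, (if x ∈ Zs N k0 then (1 : ℝ) else 0) * 2 ^ (Fintype.card U + 1) =
      ∑ t : Option U → ZMod 2, ch (∑ o, t o * aa x o) := by
    intro x
    rw [orth, Fintype.card_option]
    have h1 : x ∈ Zs N k0 ↔ ∀ o, aa x o = 0 := by
      rw [mem_Zs, haa]
      constructor
      · rintro ⟨h1, h2⟩ (_ | v)
        · exact h1
        · exact h2 v
      · intro h
        exact ⟨h none, fun v => h (some v)⟩
    by_cases h : x ∈ Zs N k0
    · rw [if_pos h, if_pos (h1.1 h), one_mul]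
    · rw [if_neg h, if_neg fun h' => h (h1.2 h'), zero_mul]
  have hmain : (Fintype.card (Zs N k0) : ℝ) * 2 ^ (Fintype.card U + 1) =
      2 ^ (Fintype.card U + Fintype.card J) := by
    rw [hZ, sum_mul, sum_congr rfl fun x _ => hZ2 x, sum_comm]
    have h1 : ∀ t : Option U → ZMod 2, ∑ x : U ⊕ J → ZMod 2, ch (∑ o, t o * aa x o) =
        if t = 0 then (2 : ℝ) ^ (Fintype.card U + Fintype.card J) else 0 := by
      intro t
      rw [sum_congr rfl fun x _ => by rw [hid x t], orth, Fintype.card_sum]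
      by_cases ht : t = 0
      · rw [if_pos ht, if_pos ((hL0 t).2 ht)]
      · rw [if_neg ht, if_neg fun h => ht ((hL0 t).1 h)]
    rw [sum_congr rfl fun t _ => h1 t, sum_ite_eq' univ (0 : Option U → ZMod 2),
      if_pos (mem_univ _)]
  have h2 : (0 : ℝ) < 2 ^ Fintype.card U := by positivity
  refine mul_right_cancel₀ h2.ne' ?_
  calc (Fintype.card (Zs N k0) : ℝ) * 2 * 2 ^ Fintype.card U =
      Fintype.card (Zs N k0) * 2 ^ (Fintype.card U + 1) := by ring
    _ = 2 ^ (Fintype.card U + Fintype.card J) := hmain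
    _ = 2 ^ Fintype.card J * 2 ^ Fintype.card U := by ring

/-- the form on the space -/
def BB (u : U ⊕ J → ZMod 2) (N : U ⊕ J → U ⊕ J → ZMod 2) (k0 : J) (a b : Zs N k0) : ZMod 2 :=
  om u (a : U ⊕ J → ZMod 2) (b : U ⊕ J → ZMod 2)

/-- the annihilator -/
noncomputable def Ann (N : U ⊕ J → U ⊕ J → ZMod 2) (k0 : J) : Finset (U ⊕ J → ZMod 2) :=
  univ.filter fun h => ∀ b : Zs N k0, ∑ q, h q * (b : U ⊕ J → ZMod 2) q = 0

theorem card_Ann (N : U ⊕ J → U ⊕ J → ZMod 2) (k0 : J) :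
    ((Ann N k0).card : ℝ) * Fintype.card (Zs N k0) = 2 ^ (Fintype.card U + Fintype.card J) := by
  have h1 : ((Ann N k0).card : ℝ) * Fintype.card (Zs N k0) =
      ∑ h : U ⊕ J → ZMod 2, ∑ b : Zs N k0, ch (∑ q, h q * (b : U ⊕ J → ZMod 2) q) := by
    unfold Ann
    rw [card_filter, Nat.cast_sum, sum_mul]
    refine sum_congr rfl fun h _ => ?_
    rw [orthZ (fun b : Zs N k0 => ∑ q, h q * (b : U ⊕ J → ZMod 2) q)]
    · split_ifs
      · rw [Nat.cast_one, one_mul]
      · rw [Nat.cast_zero, zero_mul]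
    · intro a b
      rw [← sum_add_distrib]
      refine sum_congr rfl fun q _ => ?_
      rw [Submodule.coe_add, Pi.add_apply, mul_add]
  rw [h1, sum_comm]
  have h2 : ∀ b : Zs N k0, ∑ h : U ⊕ J → ZMod 2, ch (∑ q, h q * (b : U ⊕ J → ZMod 2) q) =
      if b = 0 then (2 : ℝ) ^ (Fintype.card U + Fintype.card J) else 0 := by
    intro b
    rw [orth, Fintype.card_sum]
    by_cases hb : b = 0
    · rw [if_pos hb, if_pos]
      intro q
      rw [hb]
      rfl
    · rw [if_neg hb, if_neg]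
      intro h
      exact hb (Subtype.ext (funext h))
  rw [sum_congr rfl fun b _ => h2 b, sum_ite_eq' univ (0 : Zs N k0), if_pos (mem_univ _)]

theorem card_rad (u : U ⊕ J → ZMod 2) (N : U ⊕ J → U ⊕ J → ZMod 2) (k0 : J) :
    ((rad (BB u N k0)).card : ℝ) ≤ (Ann N k0).card * (2 * (2 ^ Fintype.card U *
      2 ^ (Fintype.card J - (univ.filter fun k : J => u (Sum.inr k) = 1).card))) := by
  set ff : Zs N k0 → (U ⊕ J → ZMod 2) × (ZMod 2 × ((U → ZMod 2) ×
      ({l : J // l ∈ (univ.filter fun k : J => u (Sum.inr k) = 1)ᶜ} → ZMod 2))) := fun a =>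
    (fun q => u q * ((a : U ⊕ J → ZMod 2) q + ∑ p, u p * (a : U ⊕ J → ZMod 2) p),
      (∑ p, u p * (a : U ⊕ J → ZMod 2) p, (fun v => (a : U ⊕ J → ZMod 2) (Sum.inl v),
        fun l => (a : U ⊕ J → ZMod 2) (Sum.inr l.1)))) with hff
  have h1 : (rad (BB u N k0)).card ≤ ((Ann N k0) ×ˢ (univ : Finset (ZMod 2 × ((U → ZMod 2) ×
      ({l : J // l ∈ (univ.filter fun k : J => u (Sum.inr k) = 1)ᶜ} → ZMod 2))))).card := by
    refine card_le_card_of_injOn ff (fun a ha => ?_) ?_
    · rw [mem_coe, mem_product]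
      refine ⟨?_, mem_univ _⟩
      unfold Ann
      rw [mem_filter]
      refine ⟨mem_univ _, fun b => ?_⟩
      have h2 : a ∈ rad (BB u N k0) := ha
      unfold rad at h2
      rw [mem_filter] at h2
      have h3 := h2.2 b
      unfold BB om at h3
      rw [← h3, hff]
      simp only
      rw [sum_mul, ← sum_add_distrib]
      refine sum_congr rfl fun q _ => ?_
      ring
    · intro a _ b _ hab
      rw [hff] at hab
      simp only [Prod.mk.injEq] at hab
      obtain ⟨h2, h3, h4, h5⟩ := hab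
      refine Subtype.ext (funext fun q => ?_)
      rcases q with v | l
      · exact congrFun h4 v
      · by_cases hl : u (Sum.inr l) = 1
        · have h6 := congrFun h2 (Sum.inr l)
          simp only [hl, one_mul] at h6
          rw [h3] at h6
          exact add_right_cancel h6
        · have hm : l ∈ (univ.filter fun k : J => u (Sum.inr k) = 1)ᶜ := by
            rw [mem_compl, mem_filter]
            exact fun h => hl h.2
          exact congrFun h5 ⟨l, hm⟩
  have h2 : ((rad (BB u N k0)).card : ℝ) ≤ _ := Nat.cast_le.2 h1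
  refine h2.trans (le_of_eq ?_)
  rw [card_product, Nat.cast_mul]
  congr 1
  rw [card_univ, Fintype.card_prod, Fintype.card_prod, Fintype.card_fun, Fintype.card_fun,
    ZMod.card, Fintype.card_coe, card_compl]
  push_cast
  rfl

/-- the vectors supported on the small primes -/
noncomputable def SU (N : U ⊕ J → U ⊕ J → ZMod 2) (k0 : J) : Finset (Zs N k0) :=
  univ.filter fun a => ∀ l, (a : U ⊕ J → ZMod 2) (Sum.inr l) = 0

theorem card_SU (N : U ⊕ J → U ⊕ J → ZMod 2) (k0 : J) :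
    ((SU N k0).card : ℝ) ≤ 2 ^ Fintype.card U := by
  have h1 : (SU N k0).card ≤ (univ : Finset (U → ZMod 2)).card := by
    refine card_le_card_of_injOn (fun a v => (a : U ⊕ J → ZMod 2) (Sum.inl v))
      (fun a _ => mem_coe.2 (mem_univ _)) ?_
    intro a ha b hb hab
    have ha' : a ∈ SU N k0 := ha
    have hb' : b ∈ SU N k0 := hb
    unfold SU at ha' hb'
    rw [mem_filter] at ha' hb'
    refine Subtype.ext (funext fun q => ?_)
    rcases q with v | l
    · exact congrFun hab v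
    · rw [ha'.2, hb'.2]
  rw [card_univ, Fintype.card_fun, ZMod.card] at h1
  exact_mod_cast h1

end conc

end Pool.Agent.N916.GB
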