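import Mathlib
import Pool.Agent.N916.GB.LA3

/-!
# GB-LA: the probability that a random completion is good
-/

set_option autoImplicit false
set_option linter.all false

open scoped Classical

namespace Pool.Agent.N916.GB

open Finset Filter

section fin

variable {U J : Type} [Fintype U] [Fintype J] [LinearOrder J]
  {w u : U ⊕ J → ZMod 2} {N : U ⊕ J → U ⊕ J → ZMod 2}

theorem T_val (hw : ∀ k, w (Sum.inr k) = 1) (hu : ∑ i, u i = 1)
    (h3 : ∀ i j, i ≠ j → w i * N i j + w j * N j i = u i * u j)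
    (h4 : ∀ v, w (Sum.inl v) = 0 → u (Sum.inl v) = 1 ∧ ∀ v', w (Sum.inl v') = 0 → v = v')
    (h5 : ∀ (b : U → ZMod 2) (s : ZMod 2), ((∃ v, b v ≠ 0) ∨ s ≠ 0) →
      ∃ k, ∑ v, b v * N (Sum.inl v) (Sum.inr k) + s * u (Sum.inr k) ≠ 0) (k0 : J) (k : ℕ) :
    (∑ σ : ps J → ZMod 2, In k (Module.finrank (ZMod 2) (Kr (pt N (sx σ)) k0))) *
        2 ^ (k * Fintype.card J) =
      2 ^ (ps J).card * (2 ^ k * ∑ τ : ps (Fin k) → ZMod 2, ∑ z ∈ GG N k0 k,
        ch (Qf (BB u N k0) τ z)) := by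
  have h6 : ∑ σ : ps J → ZMod 2, In k (Module.finrank (ZMod 2) (Kr (pt N (sx σ)) k0)) =
      ∑ z ∈ GG N k0 k, ((univ.filter fun σ : ps J → ZMod 2 => Pc (yy z) (ee z) σ).card : ℝ) := by
    rw [sum_congr rfl fun σ _ => card_Kr N k0 k σ]
    simp only [card_filter, Nat.cast_sum]
    rw [sum_comm]
    unfold GG
    rw [sum_filter]
    refine sum_congr rfl fun z _ => ?_
    by_cases hz : z ∈ GG N k0 k
    · have hz' := hz
      unfold GG at hz'
      rw [mem_filter] at hz'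
      rw [if_pos hz'.2]
      refine sum_congr rfl fun σ _ => ?_
      have := GG_li hz
      by_cases hσ : Pc (yy z) (ee z) σ
      · rw [if_pos ⟨this, hσ⟩, if_pos hσ]
      · rw [if_neg fun h => hσ h.2, if_neg hσ]
    · have hz' := hz
      unfold GG at hz'
      rw [mem_filter] at hz'
      rw [if_neg fun h => hz' ⟨mem_univ _, h⟩]
      refine sum_eq_zero fun σ _ => ?_
      rw [if_neg, Nat.cast_zero]
      rintro ⟨h1, h2⟩
      exact hz (li_GG hw h3 h4 h5 h1 h2)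
  rw [h6, sum_mul]
  have h7 : ∀ z ∈ GG N k0 k, ((univ.filter fun σ : ps J → ZMod 2 => Pc (yy z) (ee z) σ).card : ℝ) *
      2 ^ (k * Fintype.card J) = 2 ^ (ps J).card * (2 ^ k * ∑ τ : ps (Fin k) → ZMod 2,
        ch (Qf (BB u N k0) τ z)) := by
    intro z hz
    unfold GG at hz
    rw [mem_filter] at hz
    rw [count_val (yy z) (ee z) hz.2 k0 (fun i => (mem_Zs.1 (z i).2).1) (sum_ee hw hu h3 z)]
    congr 2
    refine sum_congr rfl fun τ _ => congrArg ch ?_
    unfold Qf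
    refine sum_congr rfl fun f _ => ?_
    rw [form_ee hw h3]
    rfl
  rw [sum_congr rfl h7, ← mul_sum, ← mul_sum, sum_comm]

theorem BB_add (u : U ⊕ J → ZMod 2) (N : U ⊕ J → U ⊕ J → ZMod 2) (k0 : J) (a b c : Zs N k0) :
    BB u N k0 a (b + c) = BB u N k0 a b + BB u N k0 a c := by
  unfold BB
  rw [Submodule.coe_add, om_add]

theorem T_bound (hw : ∀ k, w (Sum.inr k) = 1) (hu : ∑ i, u i = 1)
    (h3 : ∀ i j, i ≠ j → w i * N i j + w j * N j i = u i * u j)
    (h4 : ∀ v, w (Sum.inl v) = 0 → u (Sum.inl v) = 1 ∧ ∀ v', w (Sum.inl v') = 0 → v = v')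
    (h5 : ∀ (b : U → ZMod 2) (s : ZMod 2), ((∃ v, b v ≠ 0) ∨ s ≠ 0) →
      ∃ k, ∑ v, b v * N (Sum.inl v) (Sum.inr k) + s * u (Sum.inr k) ≠ 0) (k0 : J) (k V : ℕ)
    (hV : 2 * Fintype.card U + V ≤ (univ.filter fun k : J => u (Sum.inr k) = 1).card) :
    |(∑ σ : ps J → ZMod 2, In k (Module.finrank (ZMod 2) (Kr (pt N (sx σ)) k0))) /
        2 ^ (ps J).card - 1| * 2 ^ V ≤ 2 ^ (k ^ 2 + k + 4) := by
  set T : ℝ := (∑ σ : ps J → ZMod 2, In k (Module.finrank (ZMod 2) (Kr (pt N (sx σ)) k0))) /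
        2 ^ (ps J).card with hT
  set S : ℝ := ∑ τ : ps (Fin k) → ZMod 2, ∑ z ∈ GG N k0 k, ch (Qf (BB u N k0) τ z) with hS
  set Z : ℝ := (Fintype.card (Zs N k0) : ℝ) with hZ
  have hZ2 : Z * 2 = 2 ^ Fintype.card J := card_Zs h5 k0
  have hZ0 : 0 < Z := by
    have : (0 : ℝ) < 2 ^ Fintype.card J := by positivity
    linarith
  have h6 := T_val hw hu h3 h4 h5 k0 k
  have hp : (0 : ℝ) < 2 ^ (ps J).card := by positivity
  have h7 : T * 2 ^ (k * Fintype.card J) = 2 ^ k * S := by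
    rw [hT, div_mul_eq_mul_div, h6, mul_div_cancel_left₀ _ hp.ne']
  have h8 : (2 : ℝ) ^ (k * Fintype.card J) = Z ^ k * 2 ^ k := by
    rw [← mul_pow, hZ2, ← pow_mul, mul_comm]
  have hk2 : (0 : ℝ) < 2 ^ k := by positivity
  have h9 : T * Z ^ k = S := by
    rw [h8] at h7
    have : 2 ^ k * (T * Z ^ k) = 2 ^ k * S := by rw [← h7]; ring
    exact mul_left_cancel₀ hk2.ne' this
  have hZk : 0 < Z ^ k := by positivity
  have h10 := mom (B := BB u N k0) (BB_add u N k0) (fun a b => om_symm u _ _) k (SU N k0) (GG N k0 k)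
    (fun z hz => by
      unfold GG at hz
      rw [mem_filter] at hz
      have hz' : ¬ ∀ c : Fin k → ZMod 2, (∀ l, ∑ i, c i * yy z i l = 0) → ∀ i, c i = 0 :=
        fun h => hz ⟨mem_univ _, h⟩
      push Not at hz'
      obtain ⟨c, hc1, hc2⟩ := hz'
      refine ⟨c, hc2, ?_⟩
      unfold SU
      rw [mem_filter]
      refine ⟨mem_univ _, fun l => ?_⟩
      rw [Zs_coe_sum]
      exact hc1 l)
  rw [← hS, ← hZ] at h10
  have h11 : |T - 1| * Z ≤ 2 ^ k ^ 2 * ((rad (BB u N k0)).card + 2 ^ k * (SU N k0).card) := by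
    have h12 : |S - Z ^ k| = |T - 1| * Z ^ k := by
      rw [← h9, ← sub_one_mul, abs_mul, abs_of_pos hZk]
    rw [h12] at h10
    refine le_of_mul_le_mul_left ?_ hZk
    calc Z ^ k * (|T - 1| * Z) = |T - 1| * Z ^ k * Z := by ring
      _ ≤ _ := h10
      _ = _ := by ring
  -- the radical
  have h13 := card_rad u N k0
  have h14 := card_Ann N k0
  rw [← hZ] at h14
  set r : ℝ := ((rad (BB u N k0)).card : ℝ) with hr
  set A : ℝ := ((Ann N k0).card : ℝ) with hA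
  set o : ℕ := (univ.filter fun k : J => u (Sum.inr k) = 1).card with ho
  have hoJ : o ≤ Fintype.card J := by
    rw [ho]
    exact (card_filter_le _ _).trans (le_of_eq card_univ)
  have h15 : r * 2 ^ V ≤ 8 * Z := by
    refine le_of_mul_le_mul_left ?_ hZ0
    calc Z * (r * 2 ^ V) = (r * Z) * 2 ^ V := by ring
      _ ≤ (A * (2 * (2 ^ Fintype.card U * 2 ^ (Fintype.card J - o))) * Z) * 2 ^ V := by gcongr
      _ = (A * Z) * (2 * (2 ^ Fintype.card U * 2 ^ (Fintype.card J - o))) * 2 ^ V := by ring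
      _ = 2 ^ (Fintype.card U + Fintype.card J + 1 + Fintype.card U + (Fintype.card J - o) + V) := by
        rw [h14]
        ring
      _ ≤ (2 : ℝ) ^ (Fintype.card J + Fintype.card J + 1) :=
        pow_le_pow_right₀ (by norm_num) (by omega)
      _ = 2 ^ Fintype.card J * 2 ^ Fintype.card J * 2 := by ring
      _ = (Z * 2) * (Z * 2) * 2 := by rw [hZ2]
      _ = Z * (8 * Z) := by ring
  have h16 : ((SU N k0).card : ℝ) * 2 ^ V ≤ 2 * Z := by
    calc ((SU N k0).card : ℝ) * 2 ^ V ≤ 2 ^ Fintype.card U * 2 ^ V := by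
          have := card_SU N k0
          gcongr
      _ = 2 ^ (Fintype.card U + V) := by ring
      _ ≤ 2 ^ Fintype.card J := pow_le_pow_right₀ (by norm_num) (by omega)
      _ = 2 * Z := by rw [← hZ2]; ring
  have hk1 : (1 : ℝ) ≤ 2 ^ k := one_le_pow₀ (by norm_num)
  have h17 : (|T - 1| * 2 ^ V) * Z ≤ 2 ^ (k ^ 2 + k + 4) * Z := by
    calc (|T - 1| * 2 ^ V) * Z = (|T - 1| * Z) * 2 ^ V := by ring
      _ ≤ (2 ^ k ^ 2 * (r + 2 ^ k * (SU N k0).card)) * 2 ^ V := by gcongr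
      _ = 2 ^ k ^ 2 * (r * 2 ^ V + 2 ^ k * ((SU N k0).card * 2 ^ V)) := by ring
      _ ≤ 2 ^ k ^ 2 * (8 * Z + 2 ^ k * (2 * Z)) := by gcongr
      _ ≤ 2 ^ k ^ 2 * (8 * Z * 2 ^ k + 2 ^ k * (8 * Z)) := by
          have : 8 * Z ≤ 8 * Z * 2 ^ k := le_mul_of_one_le_right (by linarith) hk1
          have h18 : 2 * Z ≤ 8 * Z := by linarith
          gcongr
      _ = 2 ^ (k ^ 2 + k + 4) * Z := by ring
  exact le_of_mul_le_mul_right h17 hZ0

end fin

theorem t_LA : S_LA := by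
  intro ε hε
  -- the truncation
  have hlim := eta_sum
  rw [Metric.tendsto_atTop] at hlim
  obtain ⟨K0, hK0⟩ := hlim (ε / 2) (by linarith)
  set K : ℕ := 2 * K0 with hK
  set M : ℝ := ∑ k ∈ range (K + 2), (2 : ℝ) ^ (k ^ 2 + k + 4) with hM
  have hM0 : 0 ≤ M := sum_nonneg fun k _ => by positivity
  obtain ⟨V1, hV1⟩ := pow_unbounded_of_one_lt (M / (ε / 2)) (by norm_num : (1 : ℝ) < 2)
  refine ⟨V1 + 1, ?_⟩
  intro U J _ _ _ w u N hw hu h3 h4 h5 hV
  have hne : (univ.filter fun k : J => u (Sum.inr k) = 1).Nonempty := by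
    rw [← card_pos]
    omega
  obtain ⟨k0, -⟩ := hne
  set P : ℝ := ((univ.filter fun σ : ps J → ZMod 2 => Gv (pt N (sx σ))).card : ℝ) /
    2 ^ (ps J).card with hP
  have hp : (0 : ℝ) < 2 ^ (ps J).card := by positivity
  set T : ℕ → ℝ := fun k => (∑ σ : ps J → ZMod 2,
    In k (Module.finrank (ZMod 2) (Kr (pt N (sx σ)) k0))) / 2 ^ (ps J).card with hT
  have hTb : ∀ k, |T k - 1| ≤ 2 ^ (k ^ 2 + k + 4) / 2 ^ V1 := by
    intro k
    rw [le_div_iff₀ (by positivity)]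
    exact T_bound hw hu h3 h4 h5 k0 k V1 (by omega)
  have hPs : ((univ.filter fun σ : ps J → ZMod 2 => Gv (pt N (sx σ))).card : ℝ) =
      ∑ σ : ps J → ZMod 2,
        if Module.finrank (ZMod 2) (Kr (pt N (sx σ)) k0) = 0 then (1 : ℝ) else 0 := by
    rw [card_filter, Nat.cast_sum]
    refine sum_congr rfl fun σ _ => ?_
    by_cases h : Gv (pt N (sx σ))
    · rw [if_pos h, if_pos ((Gv_iff _ k0).1 h), Nat.cast_one]
    · rw [if_neg h, if_neg fun h' => h ((Gv_iff _ k0).2 h'), Nat.cast_zero]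
  have hsw : ∀ n : ℕ, ∑ k ∈ range n, (-1) ^ k * T k / mm k =
      (∑ σ : ps J → ZMod 2, ∑ k ∈ range n,
        (-1) ^ k * In k (Module.finrank (ZMod 2) (Kr (pt N (sx σ)) k0)) / mm k) /
        2 ^ (ps J).card := by
    intro n
    rw [sum_comm, sum_div]
    refine sum_congr rfl fun k _ => ?_
    rw [hT]
    simp only
    rw [← sum_div, ← mul_sum]
    ring
  have hup : P ≤ ∑ k ∈ range (K + 1), (-1) ^ k * T k / mm k := by
    rw [hsw, hP, hPs]
    refine div_le_div_of_nonneg_right (sum_le_sum fun σ _ => ?_) hp.le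
    exact bon_even ⟨K0, by omega⟩ _
  have hlo : ∑ k ∈ range (K + 2), (-1) ^ k * T k / mm k ≤ P := by
    rw [hsw, hP, hPs]
    refine div_le_div_of_nonneg_right (sum_le_sum fun σ _ => ?_) hp.le
    exact bon_odd (K := K + 1) ⟨K0, by omega⟩ _
  have herr : ∀ n : ℕ, n ≤ K + 2 → |∑ k ∈ range n, (-1) ^ k * T k / mm k -
      ∑ k ∈ range n, (-1 : ℝ) ^ k / mm k| ≤ ε / 2 := by
    intro n hn
    rw [← sum_sub_distrib]
    refine (abs_sum_le_sum_abs _ _).trans ?_
    have h1 : ∀ k ∈ range n, |(-1) ^ k * T k / mm k - (-1 : ℝ) ^ k / mm k| ≤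
        2 ^ (k ^ 2 + k + 4) / 2 ^ V1 := by
      intro k _
      have h2 : (-1) ^ k * T k / mm k - (-1 : ℝ) ^ k / mm k = (-1) ^ k * ((T k - 1) / mm k) := by
        ring
      rw [h2, abs_mul, abs_pow, abs_neg, abs_one, one_pow, one_mul, abs_div, abs_of_pos (mm_pos k)]
      refine (div_le_self (abs_nonneg _) (mm_one_le k)).trans (hTb k)
    refine (sum_le_sum h1).trans ?_
    rw [← sum_div]
    have h2 : ∑ k ∈ range n, (2 : ℝ) ^ (k ^ 2 + k + 4) ≤ M := by
      rw [hM]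
      refine sum_le_sum_of_subset_of_nonneg (fun k hk => ?_) fun k _ _ => by positivity
      rw [mem_range] at hk ⊢
      omega
    rw [div_le_iff₀ (by positivity)]
    refine h2.trans ?_
    rw [div_lt_iff₀ (by linarith)] at hV1
    linarith
  have h6 := hK0 (K + 1) (by omega)
  have h7 := hK0 (K + 2) (by omega)
  rw [Real.dist_eq] at h6 h7
  have h8 := herr (K + 1) (by omega)
  have h9 := herr (K + 2) le_rfl
  rw [abs_le] at h8 h9 ⊢
  rw [abs_lt] at h6 h7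
  constructor
  · linarith [h9.1, h7.1]
  · linarith [h8.2, h6.2]

end Pool.Agent.N916.GB
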