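import Mathlib
import Pool.Agent.N916.GB.LA3
import Pool.Agent.N969.P15.Defs
import Pool.Agent.Y710.CQ.BIL

/-!
# GB: the good sets and the elementary form of the absence of ideal classes of order four
-/

set_option autoImplicit false
set_option linter.all false

open scoped Classical

namespace Pool.Agent.N916.GB

open Finset
open Pool.Agent.Y703.CQ (nr)
open Pool.Agent.N973.ND (uu)
open Pool.Agent.N969.P15 (Qc)

section tr

variable {V : Type} [Fintype V]

/-- the matrix of a system -/
noncomputable def Lm (N : V → V → ZMod 2) : Matrix V V (ZMod 2) := fun q p =>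
  if p = q then ∑ p', (if p' = q then 0 else N q p') else N q p

theorem Lm_mulVec (N : V → V → ZMod 2) (x : V → ZMod 2) (q : V) :
    (Lm N).mulVec x q = Ev N x q := by
  unfold Matrix.mulVec dotProduct Ev
  have h1 : ∀ p, Lm N q p * x p = (if p = q then 0 else N q p) * x p +
      (if p = q then (∑ p', (if p' = q then 0 else N q p')) * x q else 0) := by
    intro p
    unfold Lm
    by_cases h : p = q
    · rw [if_pos h, if_pos h, if_pos h, zero_mul, zero_add, h]
    · rw [if_neg h, if_neg h, if_neg h, add_zero]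
  rw [sum_congr rfl fun p _ => h1 p, sum_add_distrib, sum_ite_eq' univ q, if_pos (mem_univ _),
    sum_mul, ← sum_add_distrib]
  refine sum_congr rfl fun p _ => ?_
  by_cases h : p = q
  · rw [if_pos h, h, z2_add_self (x q)]
    ring
  · rw [if_neg h]
    ring

theorem Gv_iff_rank [Nonempty V] (N : V → V → ZMod 2) :
    Gv N ↔ (Lm N).rank + 1 = Fintype.card V := by
  have hk : ∀ x, x ∈ LinearMap.ker (Lm N).mulVecLin ↔ ∀ q, Ev N x q = 0 := by
    intro x
    rw [LinearMap.mem_ker, Matrix.mulVecLin_apply]
    constructor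
    · intro h q
      rw [← Lm_mulVec, h]
      rfl
    · intro h
      funext q
      rw [Lm_mulVec]
      exact h q
  have h1 : (fun _ => (1 : ZMod 2)) ∈ LinearMap.ker (Lm N).mulVecLin := by
    rw [hk]
    intro q
    exact Ev_const N 1 q
  have h2 := LinearMap.finrank_range_add_finrank_ker (Lm N).mulVecLin
  rw [Module.finrank_fintype_fun_eq_card] at h2
  have h3 : (Lm N).rank = Module.finrank (ZMod 2) (LinearMap.range (Lm N).mulVecLin) := rfl
  rw [← h3] at h2
  have hne : (⟨_, h1⟩ : LinearMap.ker (Lm N).mulVecLin) ≠ 0 := by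
    intro h
    have h4 := congrArg Subtype.val h
    have h5 := congrFun h4 (Classical.arbitrary V)
    exact one_ne_zero h5
  have h4 : 1 ≤ Module.finrank (ZMod 2) (LinearMap.ker (Lm N).mulVecLin) := by
    have : 0 < Module.finrank (ZMod 2) (LinearMap.ker (Lm N).mulVecLin) := by
      rw [Module.finrank_pos_iff]
      exact ⟨⟨_, _, hne⟩⟩
    omega
  constructor
  · intro h
    have h5 : Module.finrank (ZMod 2) (LinearMap.ker (Lm N).mulVecLin) ≤ 1 := by
      refine finrank_le_one ⟨_, h1⟩ fun y => ?_
      refine ⟨(y : V → ZMod 2) (Classical.arbitrary V), Subtype.ext (funext fun p => ?_)⟩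
      have h6 := h y ((hk y).1 y.2) p (Classical.arbitrary V)
      rw [Submodule.coe_smul, Pi.smul_apply, smul_eq_mul, mul_one, h6]
    omega
  · intro h x hx p q
    have h5 : Module.finrank (ZMod 2) (LinearMap.ker (Lm N).mulVecLin) = 1 := by omega
    rw [finrank_eq_one_iff_of_nonzero' ⟨_, h1⟩ hne] at h5
    obtain ⟨c, hc⟩ := h5 ⟨x, (hk x).2 hx⟩
    have h6 := congrArg Subtype.val hc
    have h7 : ∀ p, x p = c := by
      intro p
      have := congrFun h6 p
      rw [Submodule.coe_smul, Pi.smul_apply, smul_eq_mul, mul_one] at this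
      exact this.symm
    rw [h7 p, h7 q]

/-- the transposed system -/
theorem Gv_transpose [Nonempty V] (N : V → V → ZMod 2)
    (h : ∀ i, ∑ j, (if j = i then 0 else N i j) = ∑ j, (if j = i then 0 else N j i)) :
    Gv N ↔ Gv (fun i j => N j i) := by
  rw [Gv_iff_rank, Gv_iff_rank]
  have h1 : Lm (fun i j => N j i) = (Lm N).transpose := by
    funext q p
    rw [Matrix.transpose_apply]
    unfold Lm
    by_cases hpq : p = q
    · rw [if_pos hpq, if_pos hpq.symm, ← h q, hpq]
    · rw [if_neg hpq, if_neg fun h => hpq h.symm]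
  rw [h1, Matrix.rank_transpose]

end tr

/-- the sign, with integer values -/
theorem jac_prod {p : ℕ} (hp : p.Prime) (hp2 : p ≠ 2) (s : Finset ℕ)
    (hs : ∀ q ∈ s, q.Prime ∧ q ≠ p) :
    jacobiSym ((∏ q ∈ s, q : ℕ) : ℤ) p = if ∑ q ∈ s, nr p q = 0 then 1 else -1 := by
  haveI : Fact p.Prime := ⟨hp⟩
  induction s using Finset.induction_on with
  | empty =>
    rw [prod_empty, sum_empty, if_pos rfl, Nat.cast_one]
    exact jacobiSym.one_left p
  | insert a s ha ih =>
    rw [prod_insert ha, sum_insert ha, Nat.cast_mul, jacobiSym.mul_left,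
      ih fun q hq => hs q (mem_insert_of_mem hq)]
    obtain ⟨h1, h2⟩ := hs a (mem_insert_self a s)
    have h0 : (a : ZMod p) ≠ 0 := by
      intro h
      rw [ZMod.natCast_eq_zero_iff] at h
      exact h2 ((Nat.prime_dvd_prime_iff_eq hp h1).1 h).symm
    have h3 : jacobiSym (a : ℤ) p = if nr p a = 0 then 1 else -1 := by
      rw [← jacobiSym.legendreSym.to_jacobiSym]
      unfold Pool.Agent.Y703.CQ.nr
      by_cases h : IsSquare (a : ZMod p)
      · rw [if_pos h, if_pos rfl]
        exact (legendreSym.eq_one_iff' p h0).2 h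
      · rw [if_neg h, if_neg one_ne_zero]
        exact (legendreSym.eq_neg_one_iff' p).2 h
    rw [h3]
    rcases z2 (nr p a) with h | h <;> rcases z2 (∑ q ∈ s, nr p q) with h' | h' <;> rw [h, h']
    · simp
    · simp
    · simp
    · rw [show (1 : ZMod 2) + 1 = 0 from by decide]
      norm_num

theorem Qc_iff {n : ℕ} (hn : Squarefree n) (h4 : n % 4 = 3) :
    Qc n ↔ Gv (fun p q : n.primeFactors => nr (p : ℕ) (q : ℕ)) := by
  have hn0 : n ≠ 0 := hn.ne_zero
  have hodd : ∀ p ∈ n.primeFactors, p.Prime ∧ p ≠ 2 := by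
    intro p hp
    refine ⟨Nat.prime_of_mem_primeFactors hp, ?_⟩
    rintro rfl
    have := Nat.dvd_of_mem_primeFactors hp
    omega
  have hprod : ∏ p ∈ n.primeFactors, p = n := Nat.prod_primeFactors_of_squarefree hn
  constructor
  · intro hQ x hx p₀ q₀
    -- the factorization
    set B := n.primeFactors.filter fun p => ∀ h : p ∈ n.primeFactors, x ⟨p, h⟩ = 0 with hB
    set C := n.primeFactors.filter fun p => ¬ ∀ h : p ∈ n.primeFactors, x ⟨p, h⟩ = 0 with hC
    have hBC : (∏ p ∈ B, p) * ∏ p ∈ C, p = n := by
      rw [hB, hC, prod_filter_mul_prod_filter_not, hprod]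
    have hBp : (∏ p ∈ B, p).primeFactors = B :=
      Nat.primeFactors_prod fun p hp => (hodd p (mem_filter.1 hp).1).1
    have hCp : (∏ p ∈ C, p).primeFactors = C :=
      Nat.primeFactors_prod fun p hp => (hodd p (mem_filter.1 hp).1).1
    have hxB : ∀ p : n.primeFactors, (p : ℕ) ∈ B ↔ x p = 0 := by
      intro p
      rw [hB, mem_filter]
      exact ⟨fun h => h.2 p.2, fun h => ⟨p.2, fun _ => h⟩⟩
    have hxC : ∀ p : n.primeFactors, (p : ℕ) ∈ C ↔ x p = 1 := by
      intro p
      rw [hC, mem_filter]
      constructor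
      · intro h
        refine (z2 _).resolve_left fun h0 => h.2 fun _ => h0
      · intro h
        refine ⟨p.2, fun h0 => ?_⟩
        have := h0 p.2
        rw [h] at this
        exact one_ne_zero this
    have hsum : ∀ (D : Finset ℕ) (hD : D ⊆ n.primeFactors) (q : ℕ),
        ∑ p ∈ D, nr q p = ∑ p : n.primeFactors, if (p : ℕ) ∈ D then nr q p else 0 := by
      intro D hD q
      rw [sum_coe_sort n.primeFactors fun p => if p ∈ D then nr q p else 0, ← sum_filter]
      congr 1
      ext p
      rw [mem_filter]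
      exact ⟨fun h => ⟨hD h, h⟩, fun h => h.2⟩
    have hBs : B ⊆ n.primeFactors := filter_subset _ _
    have hCs : C ⊆ n.primeFactors := filter_subset _ _
    have h1 : ∀ q ∈ C, ∑ p ∈ B, nr q p = 0 := by
      intro q hq
      have h2 := hx ⟨q, hCs hq⟩
      rw [hsum B hBs]
      refine Eq.trans (sum_congr rfl fun p _ => ?_) h2
      rw [(hxC ⟨q, hCs hq⟩).1 hq]
      by_cases hp : (p : ℕ) ∈ B
      · rw [if_pos hp, (hxB p).1 hp, zero_add, one_mul]
      · rw [if_neg hp, (z2 (x p)).resolve_left fun h => hp ((hxB p).2 h), z2_add_self, zero_mul]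
    have h2 : ∀ q ∈ B, ∑ p ∈ C, nr q p = 0 := by
      intro q hq
      have h2 := hx ⟨q, hBs hq⟩
      rw [hsum C hCs]
      refine Eq.trans (sum_congr rfl fun p _ => ?_) h2
      rw [(hxB ⟨q, hBs hq⟩).1 hq, add_zero]
      by_cases hp : (p : ℕ) ∈ C
      · rw [if_pos hp, (hxC p).1 hp, one_mul]
      · rw [if_neg hp, (z2 (x p)).resolve_right fun h => hp ((hxC p).2 h), zero_mul]
    have hdis : Disjoint B C := disjoint_filter_filter_not _ _ _
    have h3 := hQ (∏ p ∈ B, p) (∏ p ∈ C, p) hBC
      (by
        intro q hq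
        rw [hCp] at hq
        obtain ⟨e1, e2⟩ := hodd q (hCs hq)
        rw [jac_prod e1 e2, if_pos (h1 q hq)]
        intro p hp
        refine ⟨(hodd p (hBs hp)).1, ?_⟩
        rintro rfl
        exact (Finset.disjoint_left.1 hdis) hp hq)
      (by
        intro q hq
        rw [hBp] at hq
        obtain ⟨e1, e2⟩ := hodd q (hBs hq)
        rw [jac_prod e1 e2, if_pos (h2 q hq)]
        intro p hp
        refine ⟨(hodd p (hCs hp)).1, ?_⟩
        rintro rfl
        exact (Finset.disjoint_left.1 hdis) hq hp)
    rcases h3 with h3 | h3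
    · have hBe : B = ∅ := by
        rw [← hBp, h3, Nat.primeFactors_one]
      have h4 : ∀ p : n.primeFactors, x p = 1 := by
        intro p
        refine (z2 _).resolve_left fun h => ?_
        have := (hxB p).2 h
        rw [hBe] at this
        exact absurd this (notMem_empty _)
      rw [h4 p₀, h4 q₀]
    · have hCe : C = ∅ := by
        rw [← hCp, h3, Nat.primeFactors_one]
      have h4 : ∀ p : n.primeFactors, x p = 0 := by
        intro p
        refine (z2 _).resolve_right fun h => ?_
        have := (hxC p).2 h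
        rw [hCe] at this
        exact absurd this (notMem_empty _)
      rw [h4 p₀, h4 q₀]
  · intro hG b c hbc h1 h2
    have hb0 : b ≠ 0 := by
      rintro rfl
      rw [zero_mul] at hbc
      exact hn0 hbc.symm
    have hc0 : c ≠ 0 := by
      rintro rfl
      rw [mul_zero] at hbc
      exact hn0 hbc.symm
    have hbs : Squarefree b := hn.squarefree_of_dvd ⟨c, hbc.symm⟩
    have hcs : Squarefree c := hn.squarefree_of_dvd ⟨b, by rw [mul_comm]; exact hbc.symm⟩
    have hcop : Nat.Coprime b c := by
      rw [← hbc] at hn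
      exact Nat.coprime_of_squarefree_mul hn
    have hun : n.primeFactors = b.primeFactors ∪ c.primeFactors := by
      rw [← hbc, Nat.primeFactors_mul hb0 hc0]
    have hdis : Disjoint b.primeFactors c.primeFactors := hcop.disjoint_primeFactors
    have h1' : ∀ q ∈ c.primeFactors, ∑ p ∈ b.primeFactors, nr q p = 0 := by
      intro q hq
      have h3 := h1 q hq
      obtain ⟨e1, e2⟩ := hodd q (by rw [hun]; exact mem_union_right _ hq)
      rw [← Nat.prod_primeFactors_of_squarefree hbs, jac_prod e1 e2] at h3
      · by_contra h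
        rw [if_neg h] at h3
        norm_num at h3
      · intro p hp
        refine ⟨Nat.prime_of_mem_primeFactors hp, ?_⟩
        rintro rfl
        exact (Finset.disjoint_left.1 hdis) hp hq
    have h2' : ∀ q ∈ b.primeFactors, ∑ p ∈ c.primeFactors, nr q p = 0 := by
      intro q hq
      have h3 := h2 q hq
      obtain ⟨e1, e2⟩ := hodd q (by rw [hun]; exact mem_union_left _ hq)
      rw [← Nat.prod_primeFactors_of_squarefree hcs, jac_prod e1 e2] at h3
      · by_contra h
        rw [if_neg h] at h3
        norm_num at h3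
      · intro p hp
        refine ⟨Nat.prime_of_mem_primeFactors hp, ?_⟩
        rintro rfl
        exact (Finset.disjoint_left.1 hdis) hq hp
    have hx := hG (fun p => if (p : ℕ) ∈ c.primeFactors then 1 else 0) (by
      rintro ⟨q, hq0⟩
      refine (sum_coe_sort n.primeFactors fun p => ((if p ∈ c.primeFactors then (1 : ZMod 2) else 0) +
        (if q ∈ c.primeFactors then 1 else 0)) * nr q p).trans ?_
      have hq := hq0
      clear hq0
      rw [hun] at hq
      rw [hun, sum_union hdis]
      rw [mem_union] at hq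
      rcases hq with hq | hq
      · have hq' : (q : ℕ) ∉ c.primeFactors := (Finset.disjoint_left.1 hdis) hq
        rw [if_neg hq']
        rw [sum_eq_zero fun p hp => by
          rw [if_neg ((Finset.disjoint_left.1 hdis) hp), add_zero, zero_mul], zero_add]
        refine Eq.trans (sum_congr rfl fun p hp => ?_) (h2' q hq)
        rw [if_pos hp, add_zero, one_mul]
      · rw [if_pos hq]
        have h5 : ∑ p ∈ c.primeFactors, ((if p ∈ c.primeFactors then (1 : ZMod 2) else 0) + 1) *
            nr q p = 0 := by
          refine sum_eq_zero fun p hp => ?_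
          rw [if_pos hp, z2_add_self, zero_mul]
        rw [h5, add_zero]
        refine Eq.trans (sum_congr rfl fun p hp => ?_) (h1' q hq)
        rw [if_neg ((Finset.disjoint_left.1 hdis) hp), zero_add, one_mul])
    by_contra hcon
    push Not at hcon
    obtain ⟨hb1, hc1⟩ := hcon
    obtain ⟨p, hp⟩ := (Nat.nonempty_primeFactors.2 (by omega : 1 < b))
    obtain ⟨q, hq⟩ := (Nat.nonempty_primeFactors.2 (by omega : 1 < c))
    have h5 := hx ⟨p, by rw [hun]; exact mem_union_left _ hp⟩
      ⟨q, by rw [hun]; exact mem_union_right _ hq⟩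
    simp only at h5
    rw [if_neg ((Finset.disjoint_left.1 hdis) hp), if_pos hq] at h5
    exact zero_ne_one h5

end Pool.Agent.N916.GB
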