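import Mathlib
import Pool.Agent.N916.GB.Qc
import Pool.Agent.N973.ND.BOX0

/-!
# GB: the translation to integers
-/

set_option autoImplicit false
set_option linter.all false

open scoped Classical

namespace Pool.Agent.N916.GB

open Finset Filter
open Pool.Agent.Y703.CQ (nr)
open Pool.Agent.N973.ND (uu)
open Pool.Agent.N969.P15 (Qc)

theorem nr_recip {p q : ℕ} (hp : Po p) (hq : Po q) (hne : p ≠ q) :
    nr p q + nr q p = uu p * uu q := by
  rw [Pool.Agent.N973.ND.nr_rec hp.1 hp.2 hq.1 hq.2 hne, ← add_assoc, z2_add_self, zero_add]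

/-- the number of the primes `3` modulo `4` -/
theorem sum_uu (S : Finset ℕ) (hS : ∀ p ∈ S, Po p) :
    (∏ p ∈ S, p) % 4 = if ∑ p ∈ S, uu p = 0 then 1 else 3 := by
  induction S using Finset.induction_on with
  | empty =>
    rw [prod_empty, sum_empty, if_pos rfl]
    norm_num
  | insert a S ha ih =>
    rw [prod_insert ha, sum_insert ha, Nat.mul_mod, ih fun p hp => hS p (mem_insert_of_mem hp)]
    obtain ⟨h1, h2⟩ := hS a (mem_insert_self a S)
    have h3 : a % 2 = 1 := h1.eq_two_or_odd.resolve_left h2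
    have h4 : a % 4 = 1 ∨ a % 4 = 3 := by omega
    rcases h4 with h4 | h4
    · have h5 : uu a = 0 := by
        unfold Pool.Agent.N973.ND.uu
        rw [if_neg (by omega)]
      rw [h4, h5, zero_add]
      split_ifs <;> rfl
    · have h5 : uu a = 1 := by
        unfold Pool.Agent.N973.ND.uu
        rw [if_pos h4]
      rw [h4, h5]
      rcases z2 (∑ p ∈ S, uu p) with h | h
      · rw [h, if_pos rfl, if_neg (by decide)]
      · rw [h, if_neg (by decide), if_pos (by decide)]

theorem Gd_iff_Gv (S : Finset ℕ) (hS : ∀ p ∈ S, Po p) :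
    Gd false 0 0 S ↔ Gv (fun q p : S => nr (p : ℕ) (q : ℕ)) := by
  unfold Gd Gv
  have hV : Vt false S = S := by
    unfold Vt
    rw [if_neg (by decide)]
  rw [hV]
  have hsy : ∀ p ∈ S, ∀ q, sy 0 0 q p = nr p q := by
    intro p hp q
    unfold sy
    rw [if_neg (hS p hp).2]
  constructor
  · intro h x hx p q
    have h1 := h (fun p => if hp : p ∈ S then x ⟨p, hp⟩ else 0) (by
      intro q hq
      have h2 := hx ⟨q, hq⟩
      rw [← sum_coe_sort S]
      refine Eq.trans (sum_congr rfl fun p _ => ?_) h2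
      rw [dif_pos p.2, dif_pos hq, hsy p p.2]) p p.2 q q.2
    rw [dif_pos p.2, dif_pos q.2] at h1
    exact h1
  · intro h x hx p hp q hq
    exact h (fun p => x p) (by
      intro q
      have h2 := hx q q.2
      rw [← sum_coe_sort S] at h2
      refine Eq.trans (sum_congr rfl fun p _ => ?_) h2
      rw [hsy p p.2]) ⟨p, hp⟩ ⟨q, hq⟩

theorem Gd_iff_Qc {n : ℕ} (hn : Squarefree n) (h4 : n % 4 = 3) :
    Gd false 0 0 n.primeFactors ↔ Qc n := by
  have hS : ∀ p ∈ n.primeFactors, Po p := by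
    intro p hp
    refine ⟨Nat.prime_of_mem_primeFactors hp, ?_⟩
    rintro rfl
    have := Nat.dvd_of_mem_primeFactors hp
    omega
  rw [Gd_iff_Gv _ hS, Qc_iff hn h4]
  haveI : Nonempty n.primeFactors := by
    obtain ⟨p, hp⟩ := (Nat.nonempty_primeFactors.2 (by omega : 1 < n))
    exact ⟨⟨p, hp⟩⟩
  have hu : ∑ p ∈ n.primeFactors, uu p = 1 := by
    have h1 := sum_uu n.primeFactors hS
    rw [Nat.prod_primeFactors_of_squarefree hn, h4] at h1
    refine (z2 _).resolve_left fun h => ?_
    rw [if_pos h] at h1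
    omega
  rw [Gv_transpose]
  intro i
  have h1 : ∑ j : n.primeFactors, ((if j = i then 0 else nr (j : ℕ) (i : ℕ)) +
      (if j = i then 0 else nr (i : ℕ) (j : ℕ))) = 0 := by
    have h2 : ∀ j : n.primeFactors, (if j = i then 0 else nr (j : ℕ) (i : ℕ)) +
        (if j = i then 0 else nr (i : ℕ) (j : ℕ)) =
        uu (i : ℕ) * uu (j : ℕ) + (if j = i then uu (i : ℕ) else 0) := by
      intro j
      by_cases h : j = i
      · rw [if_pos h, if_pos h, if_pos h, h, z2_sq, z2_add_self (uu (i : ℕ)), add_zero]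
      · rw [if_neg h, if_neg h, if_neg h, add_zero, nr_recip (hS _ j.2) (hS _ i.2)
          fun h' => h (Subtype.ext h'), mul_comm]
    rw [sum_congr rfl fun j _ => h2 j, sum_add_distrib, ← mul_sum,
      sum_coe_sort n.primeFactors fun p => uu p, hu, sum_ite_eq' univ i, if_pos (mem_univ _),
      mul_one, z2_add_self]
  rw [sum_add_distrib] at h1
  have h3 := z2_eq_of_add h1
  convert h3

theorem cl_iff {K : Finset ℕ} (hK : ∀ a ∈ K, a % 2 = 1) {D : ℕ} (hD : Squarefree D) :
    Cl K D.primeFactors ↔ D % 120 ∈ K := by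
  unfold Cl
  rw [Nat.prod_primeFactors_of_squarefree hD]
  constructor
  · exact fun h => h.2
  · intro h
    refine ⟨fun p hp => ?_, h⟩
    obtain ⟨hpp, hpd, _⟩ := Nat.mem_primeFactors.1 hp
    refine ⟨hpp, ?_⟩
    rintro rfl
    have := hK _ h
    omega

theorem card_eq {K : Finset ℕ} (hK : ∀ a ∈ K, a % 2 = 1) (X : ℕ) (Q : Finset ℕ → Prop) :
    ((Icc 1 X).filter fun D => Squarefree D ∧ D % 120 ∈ K ∧ Q D.primeFactors).card =
      ((SS K X).filter Q).card := by
  refine Finset.card_bij (fun D _ => D.primeFactors) ?_ ?_ ?_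
  · intro D hD
    obtain ⟨h1, h2, h3, h4⟩ := Finset.mem_filter.1 hD
    obtain ⟨h5, h6⟩ := Finset.mem_Icc.1 h1
    refine Finset.mem_filter.2 ⟨Finset.mem_filter.2 ⟨?_, (cl_iff hK h2).2 h3, ?_⟩, h4⟩
    · rw [Finset.mem_powerset]
      intro p hp
      have := Nat.le_of_dvd (by omega) (Nat.dvd_of_mem_primeFactors hp)
      exact Finset.mem_range.2 (by omega)
    · rw [Nat.prod_primeFactors_of_squarefree h2]
      exact h6
  · intro D hD E hE h
    have h2 := (Finset.mem_filter.1 hD).2.1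
    have h3 := (Finset.mem_filter.1 hE).2.1
    have h' : D.primeFactors = E.primeFactors := h
    rw [← Nat.prod_primeFactors_of_squarefree h2, ← Nat.prod_primeFactors_of_squarefree h3, h']
  · intro S hS
    obtain ⟨h1, h2⟩ := Finset.mem_filter.1 hS
    obtain ⟨h3, h4, h5⟩ := Finset.mem_filter.1 h1
    have hpr : ∀ p ∈ S, p.Prime := fun p hp => (h4.1 p hp).1
    have hpf : (∏ p ∈ S, p).primeFactors = S := Nat.primeFactors_prod hpr
    have hsq : Squarefree (∏ p ∈ S, p) := by
      refine Finset.squarefree_prod_of_pairwise_isCoprime (fun p hp q hq hpq => ?_)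
        fun p hp => (hpr p hp).squarefree
      show IsRelPrime p q
      rw [← Nat.coprime_iff_isRelPrime]
      exact (Nat.coprime_primes (hpr p hp) (hpr q hq)).mpr hpq
    refine ⟨∏ p ∈ S, p, ?_, hpf⟩
    have hcl : Cl K (∏ p ∈ S, p).primeFactors := by rw [hpf]; exact h4
    have c1 := (cl_iff hK hsq).1 hcl
    refine Finset.mem_filter.2 ⟨Finset.mem_Icc.2 ⟨?_, h5⟩, hsq, c1, ?_⟩
    · exact Nat.one_le_iff_ne_zero.2 hsq.ne_zero
    · rw [hpf]
      exact h2

/-! ### The positive density -/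

/-- the numbers `a` modulo `120` -/
def T' (a X : ℕ) : Finset ℕ := (Icc 1 X).filter fun n => n % 120 = a

theorem card_T' {a : ℕ} (ha : 0 < a) (ha' : a < 120) (X : ℕ) : X / 120 ≤ (T' a X).card := by
  have h : (range (X / 120)).card ≤ (T' a X).card := by
    apply card_le_card_of_injOn (fun k => 120 * k + a)
    · intro k hk
      rw [mem_coe, mem_range] at hk
      rw [mem_coe, T', mem_filter, mem_Icc]
      show (1 ≤ 120 * k + a ∧ 120 * k + a ≤ X) ∧ (120 * k + a) % 120 = a
      omega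
    · intro a _ b _ h
      simpa using h
  rwa [card_range] at h

theorem card_B {a : ℕ} (hc : a.Coprime 120) (X m : ℕ) (_ : 0 < m) :
    ((T' a X).filter fun n => m * m ∣ n).card ≤ X / (120 * (m * m)) + 1 := by
  rw [← card_range (X / (120 * (m * m)) + 1)]
  apply card_le_card_of_injOn (fun n => n / (120 * (m * m)))
  · intro n hn
    rw [mem_coe, mem_filter, T', mem_filter, mem_Icc] at hn
    rw [mem_coe, mem_range]
    exact Nat.lt_succ_of_le (Nat.div_le_div_right hn.1.1.2)
  · intro n hn n' hn' h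
    rw [mem_coe, mem_filter, T', mem_filter, mem_Icc] at hn hn'
    have h' : n / (120 * (m * m)) = n' / (120 * (m * m)) := h
    have hcop : Nat.Coprime 120 (m * m) := by
      have h1 : Nat.Coprime 120 n := by
        rw [Nat.Coprime, Nat.gcd_rec, hn.1.2]
        exact hc
      exact Nat.Coprime.coprime_dvd_right hn.2 h1
    have h2 : n ≡ n' [MOD 120 * (m * m)] := by
      rw [← Nat.modEq_and_modEq_iff_modEq_mul hcop]
      refine ⟨?_, ?_⟩
      · show n % 120 = n' % 120
        rw [hn.1.2, hn'.1.2]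
      · show n % (m * m) = n' % (m * m)
        rw [Nat.mod_eq_zero_of_dvd hn.2, Nat.mod_eq_zero_of_dvd hn'.2]
    have h3 : n % (120 * (m * m)) = n' % (120 * (m * m)) := h2
    rw [← Nat.div_add_mod n (120 * (m * m)), ← Nat.div_add_mod n' (120 * (m * m)), h', h3]

theorem sum_odd_sq (K : ℕ) : ∑ k ∈ Icc 1 K, (1 : ℝ) / (((2 * k + 1 : ℕ) : ℝ) ^ 2) ≤
    1 / 4 - 1 / (4 * ((K : ℝ) + 1)) := by
  induction K with
  | zero => norm_num
  | succ n ih =>
    rw [Finset.sum_Icc_succ_top (by omega)]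
    have h1 : (1 : ℝ) / (((2 * (n + 1) + 1 : ℕ) : ℝ) ^ 2) ≤
        1 / (4 * ((n : ℝ) + 1)) - 1 / (4 * (((n + 1 : ℕ) : ℝ) + 1)) := by
      push_cast
      rw [div_sub_div _ _ (by positivity) (by positivity), div_le_div_iff₀ (by positivity) (by positivity)]
      ring_nf
      have : (0 : ℝ) ≤ n := Nat.cast_nonneg _
      nlinarith
    linarith

/-- the squarefree numbers in a class prime to `120` have positive lower density -/
theorem low {a : ℕ} (ha' : a < 120) (hc : a.Coprime 120) (X : ℕ) (hX : 400000 ≤ X) :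
    (1 / 480 : ℝ) * X ≤ (((Icc 1 X).filter fun D => Squarefree D ∧ D % 120 = a).card : ℝ) := by
  have ha : 0 < a := by
    rcases Nat.eq_zero_or_pos a with h | h
    · subst h
      norm_num at hc
    · exact h
  have ha2 : a % 2 = 1 := by
    by_contra h
    have h1 : 2 ∣ a := by omega
    have h2 : 2 ∣ Nat.gcd a 120 := Nat.dvd_gcd h1 (by norm_num)
    rw [hc] at h2
    omega
  set K := Nat.sqrt X with hK
  have h1 : (T' a X).filter (fun n => ¬ Squarefree n) ⊆
      (Icc 1 K).biUnion fun k => (T' a X).filter fun n => (2 * k + 1) * (2 * k + 1) ∣ n := by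
    intro n hn
    rw [mem_filter] at hn
    obtain ⟨hn1, hn2⟩ := hn
    have hn1' := hn1
    rw [T', mem_filter, mem_Icc] at hn1'
    rw [Nat.squarefree_iff_prime_squarefree] at hn2
    push Not at hn2
    obtain ⟨p, hp, hd⟩ := hn2
    have hodd : p % 2 = 1 := by
      rcases hp.eq_two_or_odd with h | h
      · exfalso
        subst h
        have : 2 ∣ n := (Dvd.intro _ rfl).trans hd
        omega
      · exact h
    have hp3 : 3 ≤ p := by
      have := hp.two_le
      omega
    rw [mem_biUnion]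
    have hle : p * p ≤ X := (Nat.le_of_dvd (by omega) hd).trans hn1'.1.2
    have hle' : p ≤ K := Nat.le_sqrt.2 hle
    refine ⟨p / 2, mem_Icc.2 ⟨by omega, by omega⟩, ?_⟩
    rw [mem_filter]
    have : 2 * (p / 2) + 1 = p := by omega
    rw [this]
    exact ⟨hn1, hd⟩
  have h2 : ((T' a X).filter (fun n => ¬ Squarefree n)).card ≤
      ∑ k ∈ Icc 1 K, (X / (120 * ((2 * k + 1) * (2 * k + 1))) + 1) :=
    (card_le_card h1).trans (card_biUnion_le.trans (sum_le_sum fun k _ =>
      card_B hc X (2 * k + 1) (by omega)))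
  have h3 : (((T' a X).filter (fun n => ¬ Squarefree n)).card : ℝ) ≤
      ∑ k ∈ Icc 1 K, ((X : ℝ) / 120 * (1 / (((2 * k + 1 : ℕ) : ℝ) ^ 2)) + 1) := by
    have h4 : (((T' a X).filter (fun n => ¬ Squarefree n)).card : ℝ) ≤
        ∑ k ∈ Icc 1 K, (((X / (120 * ((2 * k + 1) * (2 * k + 1))) : ℕ) : ℝ) + 1) := by
      exact_mod_cast h2
    refine h4.trans (sum_le_sum fun k _ => ?_)
    have h5 : (((X / (120 * ((2 * k + 1) * (2 * k + 1))) : ℕ) : ℝ)) ≤
        (X : ℝ) / ((120 * ((2 * k + 1) * (2 * k + 1)) : ℕ) : ℝ) := Nat.cast_div_le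
    have h6 : (X : ℝ) / ((120 * ((2 * k + 1) * (2 * k + 1)) : ℕ) : ℝ) =
        (X : ℝ) / 120 * (1 / (((2 * k + 1 : ℕ) : ℝ) ^ 2)) := by
      push_cast
      rw [div_mul_div_comm, mul_one, pow_two]
    linarith
  rw [sum_add_distrib, ← mul_sum, sum_const, Nat.card_Icc, Nat.add_sub_cancel, nsmul_eq_mul,
    mul_one] at h3
  have h4 := sum_odd_sq K
  have hX0 : (0 : ℝ) ≤ X := Nat.cast_nonneg _
  have h5 : (X : ℝ) / 120 * ∑ k ∈ Icc 1 K, (1 : ℝ) / (((2 * k + 1 : ℕ) : ℝ) ^ 2) ≤
      (X : ℝ) / 120 * (1 / 4) := by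
    apply mul_le_mul_of_nonneg_left _ (by positivity)
    have : (0 : ℝ) ≤ 1 / (4 * ((K : ℝ) + 1)) := by positivity
    linarith
  have h6 : (K : ℝ) ≤ X / 600 := by
    have h7 : K * K ≤ X := Nat.sqrt_le X
    have h8 : X < (K + 1) * (K + 1) := Nat.lt_succ_sqrt X
    have h9 : 600 ≤ K := by
      by_contra hc
      push Not at hc
      have : (K + 1) * (K + 1) ≤ 600 * 600 := Nat.mul_le_mul (by omega) (by omega)
      omega
    have h10 : 600 * K ≤ X := (Nat.mul_le_mul_right K h9).trans h7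
    rw [le_div_iff₀ (by norm_num)]
    have : ((600 * K : ℕ) : ℝ) ≤ X := by exact_mod_cast h10
    push_cast at this
    linarith
  have h7 : (X : ℝ) / 120 - 1 ≤ ((T' a X).card : ℝ) := by
    have h8 : (X : ℝ) / 120 < ((X / 120 : ℕ) : ℝ) + 1 := by
      rw [div_lt_iff₀ (by norm_num)]
      have : X < (X / 120 + 1) * 120 := by omega
      exact_mod_cast this
    have h9 : ((X / 120 : ℕ) : ℝ) ≤ (T' a X).card := by exact_mod_cast card_T' ha ha' X
    linarith
  have h8 : ((T' a X).filter Squarefree).card + ((T' a X).filter (fun n => ¬ Squarefree n)).card =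
      (T' a X).card := card_filter_add_card_filter_not _
  have h9 : (((T' a X).filter Squarefree).card : ℝ) +
      (((T' a X).filter (fun n => ¬ Squarefree n)).card : ℝ) = (T' a X).card := by
    exact_mod_cast h8
  have h10 : (T' a X).filter Squarefree = (Icc 1 X).filter fun D => Squarefree D ∧ D % 120 = a := by
    ext n
    rw [mem_filter, T', mem_filter, mem_filter]
    tauto
  rw [← h10]
  have hX' : (400000 : ℝ) ≤ X := by exact_mod_cast hX
  linarith

/-- the proportion in the integers -/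
theorem dens (hDQ : S_DQ) (t : Bool) (r s : ZMod 2) (K : Finset ℕ) (hok : Ok t r s K) (a : ℕ)
    (ha : a ∈ K) (hc : a.Coprime 120) : Tendsto
  (fun X : ℕ => (((Icc 1 X).filter fun n => Squarefree n ∧ n % 120 ∈ K ∧
      Gd t r s n.primeFactors).card : ℝ) /
    (((Icc 1 X).filter fun n => Squarefree n ∧ n % 120 ∈ K).card : ℝ)) atTop (nhds eta) := by
  have hK : ∀ a ∈ K, a % 2 = 1 := by
    intro b hb
    have := (hok.2.2 b hb).2
    split_ifs at this <;> omega
  rw [Metric.tendsto_atTop]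
  intro ε hε
  obtain ⟨X₀, hX₀⟩ := hDQ t r s K hok (ε / 2 * (1 / 480)) (by positivity)
  refine ⟨max X₀ 400000, fun X hX => ?_⟩
  have h1 := hX₀ X ((le_max_left _ _).trans hX)
  have e1 := card_eq hK X (Gd t r s)
  have e2 := card_eq hK X (fun _ => True)
  rw [Finset.filter_true] at e2
  simp only [and_true] at e2
  rw [← e1, ← e2] at h1
  have h2 := low (hok.2.2 a ha).1 hc X ((le_max_right _ _).trans hX)
  have h3 : (((Icc 1 X).filter fun D => Squarefree D ∧ D % 120 = a).card : ℝ) ≤
      (((Icc 1 X).filter fun n => Squarefree n ∧ n % 120 ∈ K).card : ℝ) := by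
    refine Nat.cast_le.2 (card_le_card fun n hn => ?_)
    rw [mem_filter] at hn ⊢
    refine ⟨hn.1, hn.2.1, ?_⟩
    rw [hn.2.2]
    exact ha
  have hX1 : (0 : ℝ) < X := by
    have : 0 < X := by
      have := (le_max_right X₀ 400000).trans hX
      omega
    exact_mod_cast this
  set M : ℝ := (((Icc 1 X).filter fun n => Squarefree n ∧ n % 120 ∈ K).card : ℝ) with hM
  have hM0 : 0 < M := by
    have : (0 : ℝ) < 1 / 480 * X := by positivity
    linarith
  rw [Real.dist_eq, div_sub' hM0.ne', abs_div, abs_of_pos hM0, div_lt_iff₀ hM0]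
  have h4 : ε / 2 * (1 / 480) * X ≤ ε / 2 * M := by
    have := h2.trans h3
    calc ε / 2 * (1 / 480) * X = ε / 2 * (1 / 480 * X) := by ring
      _ ≤ ε / 2 * M := by gcongr
  have h5 : ε / 2 * M < ε * M := by
    apply mul_lt_mul_of_pos_right _ hM0
    linarith
  calc |(((Icc 1 X).filter fun n => Squarefree n ∧ n % 120 ∈ K ∧
      Gd t r s n.primeFactors).card : ℝ) - M * eta| = |(((Icc 1 X).filter fun n => Squarefree n ∧
        n % 120 ∈ K ∧ Gd t r s n.primeFactors).card : ℝ) - eta * M| := by rw [mul_comm M]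
    _ ≤ ε / 2 * (1 / 480) * X := h1
    _ < ε * M := by linarith

/-- the proportion of the `n` congruent to `23` or `47` modulo `60` without nontrivial solvable
factorization -/
theorem dens_Qc (hDQ : S_DQ) : Tendsto
  (fun X : ℕ => (((Icc 1 X).filter fun n => Squarefree n ∧ (n % 60 = 23 ∨ n % 60 = 47) ∧
      Qc n).card : ℝ) /
    (((Icc 1 X).filter fun n => Squarefree n ∧ (n % 60 = 23 ∨ n % 60 = 47)).card : ℝ))
    atTop (nhds eta) := by
  have h := dens hDQ false 0 0 {23, 47, 83, 107} ⟨fun _ => rfl, fun h => absurd h (by decide),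
    fun a ha => by
      rw [if_pos rfl]
      simp only [mem_insert, mem_singleton] at ha
      omega⟩ 23 (by simp) (by norm_num)
  refine h.congr fun X => ?_
  have hm : ∀ n : ℕ, n % 120 ∈ ({23, 47, 83, 107} : Finset ℕ) ↔ n % 60 = 23 ∨ n % 60 = 47 := by
    intro n
    simp only [mem_insert, mem_singleton]
    omega
  congr 3
  · refine filter_congr fun n _ => ?_
    rw [hm]
    constructor
    · rintro ⟨h1, h2, h3⟩
      exact ⟨h1, h2, (Gd_iff_Qc h1 (by omega)).1 h3⟩
    · rintro ⟨h1, h2, h3⟩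
      exact ⟨h1, h2, (Gd_iff_Qc h1 (by omega)).2 h3⟩
  · refine filter_congr fun n _ => ?_
    rw [hm]

end Pool.Agent.N916.GB
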