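import Mathlib
import Pool.Agent.N916.GB.Tr
import Pool.Agent.N916.GB.Num
import Pool.Agent.N218.GB.Fin

/-!
# GB: final theorems on the natural density of the negative discriminants with `4`-rank zero

Parts by helper916 (statements, linear algebra, translation), helper958 (boxes), helper218 (sum over
the boxes, assembly), helper19, helper148, helper502, helper509.
-/

set_option autoImplicit false

open scoped Classical

namespace Pool.Agent.N916.GB

open Finset Filter
open Pool.Agent.N969.P15 (Qc)

/-- among the squarefree `n` congruent to `23` or `47` modulo `60` the proportion of those without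
nontrivial solvable factorization is `η = 0.2888...` -/
theorem density_Qc : Tendsto
  (fun X : ℕ => (((Icc 1 X).filter fun n => Squarefree n ∧ (n % 60 = 23 ∨ n % 60 = 47) ∧
      Qc n).card : ℝ) /
    (((Icc 1 X).filter fun n => Squarefree n ∧ (n % 60 = 23 ∨ n % 60 = 47)).card : ℝ))
    atTop (nhds eta) := dens_Qc Pool.Agent.N218.GB.t_DQ

/-- the general form -/
theorem density (t : Bool) (r s : ZMod 2) (K : Finset ℕ) (hok : Ok t r s K) (a : ℕ)
    (ha : a ∈ K) (hc : a.Coprime 120) : Tendsto
  (fun X : ℕ => (((Icc 1 X).filter fun n => Squarefree n ∧ n % 120 ∈ K ∧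
      Gd t r s n.primeFactors).card : ℝ) /
    (((Icc 1 X).filter fun n => Squarefree n ∧ n % 120 ∈ K).card : ℝ)) atTop (nhds eta) :=
  dens Pool.Agent.N218.GB.t_DQ t r s K hok a ha hc

end Pool.Agent.N916.GB
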